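import Pool.Agent.Q92.KX.Class

/-!
Case I: the curved part of the norm is active somewhere on the subspace.
-/

open Set Filter Topology

namespace Q92.KX

variable {n : ℕ} {Z : Submodule ℝ (Fin n → ℝ)} {P : (Fin n → ℝ) →ₗ[ℝ] (Fin n → ℝ)}

lemma rel_refl (b : Fin n → ℝ) (l : Fin n) : rel Z b l l := fun _ _ => rfl

lemma rel_symm {b : Fin n → ℝ} {l l' : Fin n} (h : rel Z b l l') : rel Z b l' l :=
  fun z hz => (h z hz).symm

lemma rel_trans {b : Fin n → ℝ} {l l' l'' : Fin n} (hb : b l' ≠ 0) (h : rel Z b l l')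
    (h' : rel Z b l' l'') : rel Z b l l'' := by
  intro z hz
  have h1 := h z hz
  have h2 := h' z hz
  apply mul_right_cancel₀ hb
  calc z l * b l'' * b l' = (z l * b l') * b l'' := by ring
    _ = (z l' * b l'') * b l := by rw [h1]; ring
    _ = z l'' * b l * b l' := by rw [h2]; ring

/-- Proportional coordinates in the support coincide. -/
lemma rel_eq (hn : 4 ≤ n) (hP : CP Z P) {b : Fin n → ℝ} (hb : BP Z b)
    (hdim : ∃ z1 ∈ Z, ∃ z2 ∈ Z, LinearIndependent ℝ ![z1, z2]) {l l' : Fin n}
    (hl : b l ≠ 0) (hl' : b l' ≠ 0) (h : rel Z b l l') : l = l' := by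
  classical
  by_contra hne
  set N := 2 * n + 1 with hN
  set w : Fin n → ℝ := b l' ^ N • Pi.single l (1 : ℝ) - b l ^ N • Pi.single l' (1 : ℝ) with hw
  have hwl : w l = b l' ^ N := by simp [hw, hne]
  have hwl' : w l' = -b l ^ N := by simp [hw, Ne.symm hne]
  have hwo : ∀ j, j ≠ l → j ≠ l' → w j = 0 := by
    intro j h1 h2
    simp [hw, h1, h2]
  have hsum : ∀ φ : Fin n → ℝ, ∑ j, w j * φ j = b l' ^ N * φ l - b l ^ N * φ l' := by
    intro φ
    rw [← Finset.add_sum_erase _ _ (Finset.mem_univ l),
      ← Finset.add_sum_erase _ _ (Finset.mem_erase.2 ⟨Ne.symm hne, Finset.mem_univ l'⟩),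
      Finset.sum_eq_zero, hwl, hwl']
    · ring
    · intro j hj
      rw [Finset.mem_erase, Finset.mem_erase] at hj
      rw [hwo j hj.2.1 hj.1, zero_mul]
  have hwsupp : ∀ i, b i ≠ 0 ∨ w i = 0 := by
    intro i
    by_cases h1 : i = l
    · left; rw [h1]; exact hl
    · by_cases h2 : i = l'
      · left; rw [h2]; exact hl'
      · right; exact hwo i h1 h2
  obtain ⟨hsg, hDD⟩ := consequences hn hP hb hdim hwsupp
  -- `P w = 0`
  have hPw : P w = 0 := by
    funext l0
    rcases hb.supp l0 with hl0 | h0
    · have h1 := class_sum hb hdim hDD hl0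
      rw [Finset.sum_filter] at h1
      have h2 : ∑ j, (if rel Z b j l0 then w j * b j ^ N else 0) = 0 := by
        have e : ∀ j, (if rel Z b j l0 then w j * b j ^ N else 0) =
            w j * (if rel Z b j l0 then b j ^ N else 0) := fun j => by
          split_ifs <;> ring
        rw [Finset.sum_congr rfl fun j _ => e j, hsum]
        by_cases hr : rel Z b l l0
        · rw [if_pos hr, if_pos (rel_trans hl (rel_symm h) hr)]
          ring
        · rw [if_neg hr, if_neg fun h' => hr (rel_trans hl' h h')]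
          ring
      have h3 : ∑ j, (if rel Z b j l0 then (P w) j * b j ^ N else 0) = 0 := by
        have e : ∀ j, (if rel Z b j l0 then (w - P w) j * b j ^ N else 0) =
            (if rel Z b j l0 then w j * b j ^ N else 0) -
            (if rel Z b j l0 then (P w) j * b j ^ N else 0) := fun j => by
          simp only [Pi.sub_apply]
          split_ifs <;> ring
        rw [Finset.sum_congr rfl fun j _ => e j, Finset.sum_sub_distrib, h2, zero_sub,
          neg_eq_zero] at h1
        exact h1
      have h4 : (P w) l0 / b l0 * ∑ j, (if rel Z b j l0 then b j ^ (2 * (n + 1)) else 0) = 0 := by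
        refine Eq.trans ?_ h3
        rw [Finset.mul_sum]
        refine Finset.sum_congr rfl fun j _ => ?_
        split_ifs with hj
        · have h5 := hj (P w) (hP.mem w)
          have h6 : (P w) j = (P w) l0 / b l0 * b j := by
            field_simp
            exact h5
          rw [h6, hN]
          ring
        · rw [mul_zero]
      have h5 : 0 < ∑ j, (if rel Z b j l0 then b j ^ (2 * (n + 1)) else 0) := by
        refine Finset.sum_pos' (fun j _ => ?_) ⟨l0, Finset.mem_univ _, ?_⟩
        · split_ifs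
          · rw [pow_mul]; positivity
          · exact le_rfl
        · rw [if_pos (rel_refl b l0), pow_mul]
          positivity
      have h6 := (mul_eq_zero.1 h4).resolve_right h5.ne'
      rw [div_eq_zero_iff] at h6
      exact h6.resolve_right hl0
    · exact h0 _ (hP.mem w)
  rw [hPw, sub_zero] at hsg hDD
  -- the sign condition
  have hsg' : (SignType.sign (b l) : ℝ) * b l' ^ N = (SignType.sign (b l') : ℝ) * b l ^ N := by
    have : sg b w = ∑ j, w j * (SignType.sign (b j) : ℝ) :=
      Finset.sum_congr rfl fun j _ => mul_comm _ _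
    rw [this, hsum] at hsg
    linarith
  have habs : |b l| = |b l'| := by
    have h1 := congrArg abs hsg'
    have hs : ∀ x : ℝ, x ≠ 0 → |(SignType.sign x : ℝ)| = 1 := by
      intro x hx
      rcases lt_or_gt_of_ne hx with h | h
      · simp [sign_neg h]
      · simp [sign_pos h]
    rw [abs_mul, abs_mul, hs _ hl, hs _ hl', one_mul, one_mul, abs_pow, abs_pow] at h1
    exact ((pow_left_inj₀ (abs_nonneg _) (abs_nonneg _) (by omega)).1 h1).symm
  have hprod : b l * b l' ^ N = b l' * b l ^ N := by
    have e1 : ∀ x : ℝ, |x| * (SignType.sign x : ℝ) = x := fun x => by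
      rw [mul_comm]; exact sign_mul_abs x
    calc b l * b l' ^ N = |b l| * ((SignType.sign (b l) : ℝ) * b l' ^ N) := by
          rw [← mul_assoc, e1]
      _ = |b l'| * ((SignType.sign (b l') : ℝ) * b l ^ N) := by rw [hsg', habs]
      _ = _ := by rw [← mul_assoc, e1]
  -- the bilinear condition
  have hD := hDD b hb.mem
  unfold DD at hD
  rw [hsum] at hD
  have hB : bf n b w = b l' ^ N * (dw n l * b l) - b l ^ N * (dw n l' * b l') := by
    refine Eq.trans ?_ (hsum fun j => dw n j * b j)
    unfold bf
    exact Finset.sum_congr rfl fun j _ => by ring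
  have hq : 0 < qf n b ^ n := pow_pos (qf_pos hb.ne) _
  have h7 : qf n b ^ n * bf n b w = 0 := by
    rw [← hD, ← hN]; ring
  have h8 := (mul_eq_zero.1 h7).resolve_left hq.ne'
  rw [hB] at h8
  have h9 : (dw n l - dw n l') * (b l * b l' ^ N) = 0 := by
    have : b l' ^ N * (dw n l * b l) - b l ^ N * (dw n l' * b l') =
      dw n l * (b l * b l' ^ N) - dw n l' * (b l' * b l ^ N) := by ring
    rw [this, ← hprod] at h8
    linarith
  have h10 := (mul_eq_zero.1 h9).resolve_right (mul_ne_zero hl (pow_ne_zero _ hl'))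
  exact hne (dw_inj (sub_eq_zero.1 h10))

/-- Vectors supported on the support of `Z` are in `Z`. -/
lemma supp_mem (hn : 4 ≤ n) (hP : CP Z P) {b : Fin n → ℝ} (hb : BP Z b)
    (hdim : ∃ z1 ∈ Z, ∃ z2 ∈ Z, LinearIndependent ℝ ![z1, z2]) {x : Fin n → ℝ}
    (hx : ∀ i, b i ≠ 0 ∨ x i = 0) : x ∈ Z := by
  classical
  obtain ⟨hsg, hDD⟩ := consequences hn hP hb hdim hx
  have h : x = P x := by
    funext l
    rcases hb.supp l with hl | h0
    · have h1 := class_sum hb hdim hDD hl
      rw [Finset.sum_filter, Finset.sum_eq_single l] at h1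
      · rw [if_pos (rel_refl b l)] at h1
        have h2 := (mul_eq_zero.1 h1).resolve_right (pow_ne_zero _ hl)
        exact sub_eq_zero.1 h2
      · intro j _ hj
        by_cases hr : rel Z b j l
        · by_cases hbj : b j = 0
          · rw [hbj, zero_pow (by omega), mul_zero, ite_self]
          · exact absurd (rel_eq hn hP hb hdim hbj hl hr) hj
        · rw [if_neg hr]
      · intro h; exact absurd (Finset.mem_univ l) h
    · rcases hx l with hbl | hxl
      · exact absurd (h0 b hb.mem) hbl
      · rw [hxl]; exact (h0 _ (hP.mem x)).symm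
  rw [h]
  exact hP.mem x

/-- Existence of a base point. -/
lemma exists_BP {z0 : Fin n → ℝ} (hz0 : z0 ∈ Z) (hact : ‖gg z0‖ < NM n z0) :
    ∃ b, BP Z b := by
  classical
  set φ : {l : Fin n // ¬ ∀ z ∈ Z, z l = 0} → Module.Dual ℝ (Fin n → ℝ) := fun l =>
    LinearMap.proj (l : Fin n) with hφ
  obtain ⟨y, hyZ, hy⟩ := Module.Dual.exists_forall_mem_ne_zero_of_forall_exists Z φ (by
    intro l
    have hl := l.2
    push Not at hl
    exact hl)
  have hz00 : z0 ≠ 0 := by
    rintro rfl
    have h1 : NM n (0 : Fin n → ℝ) = 0 := by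
      have := NM_smul (n := n) 0 0
      simpa using this
    rw [h1] at hact
    exact absurd hact (not_lt.2 (norm_nonneg _))
  have hcNM : Continuous fun x : Fin n → ℝ => NM n x := by
    unfold NM l1 EE FF qf
    refine Continuous.add ?_ ?_
    · fun_prop
    · refine continuous_const.mul (Continuous.rpow_const (by fun_prop) fun x => Or.inr ?_)
      positivity
  have h1 : ∀ᶠ t in 𝓝 (0 : ℝ), ‖gg (z0 + t • y)‖ < NM n (z0 + t • y) := by
    have hc1 : ContinuousAt (fun t : ℝ => NM n (z0 + t • y)) 0 := by
      have : Continuous fun t : ℝ => z0 + t • y := by fun_prop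
      exact (hcNM.comp this).continuousAt
    have hc2 : ContinuousAt (fun t : ℝ => ‖gg (z0 + t • y)‖) 0 :=
      (cont_gg z0 y).norm.continuousAt
    exact hc2.eventually_lt hc1 (by simpa using hact)
  have h2 : ∀ i, ∀ᶠ t in 𝓝[≠] (0 : ℝ), (z0 + t • y) i ≠ 0 ∨ ∀ z ∈ Z, z i = 0 := by
    intro i
    by_cases hi : ∀ z ∈ Z, z i = 0
    · exact Eventually.of_forall fun t => Or.inr hi
    · have hyi : y i ≠ 0 := hy ⟨i, hi⟩
      by_cases hz : z0 i = 0
      · filter_upwards [self_mem_nhdsWithin] with t ht
        left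
        simp only [Pi.add_apply, Pi.smul_apply, smul_eq_mul, hz, zero_add]
        exact mul_ne_zero ht hyi
      · have hc : ContinuousAt (fun t : ℝ => (z0 + t • y) i) 0 := by
          simp only [Pi.add_apply, Pi.smul_apply, smul_eq_mul]
          fun_prop
        have := hc.eventually_ne (by simpa using hz : (z0 + (0 : ℝ) • y) i ≠ 0)
        filter_upwards [this.filter_mono nhdsWithin_le_nhds] with t ht
        left; exact ht
  obtain ⟨t, ht1, ht2⟩ := ((h1.filter_mono nhdsWithin_le_nhds).and (eventually_all.2 h2)).exists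
  refine ⟨z0 + t • y, Z.add_mem hz0 (Z.smul_mem t hyZ), ?_, ht1, ht2⟩
  intro h0
  rw [h0] at ht1
  have h3 : NM n (0 : Fin n → ℝ) = 0 := by
    have := NM_smul (n := n) 0 0
    simpa using this
  rw [h3] at ht1
  exact absurd ht1 (not_lt.2 (norm_nonneg _))

end Q92.KX
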