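import Pool.Agent.Q92.KX.Strict

/-!
Case II: the curved part is nowhere active on the subspace.
-/

open Set Filter Topology

namespace Q92.KX

variable {n : ℕ} {Z : Submodule ℝ (Fin n → ℝ)} {P : (Fin n → ℝ) →ₗ[ℝ] (Fin n → ℝ)}

/-- `gg · j` as a linear functional. -/
noncomputable def gl (j : Fin n) : Module.Dual ℝ (Fin n → ℝ) :=
  (2 : ℝ) • LinearMap.proj j - ∑ i, LinearMap.proj i

lemma gl_apply (j : Fin n) (z : Fin n → ℝ) : gl j z = gg z j := by
  unfold gl gg fs
  simp

/-- Generic points on a line. -/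
lemma generic_line {ι : Type*} [Finite ι] (Φ : ι → Module.Dual ℝ (Fin n → ℝ)) {y : Fin n → ℝ}
    (hy : ∀ k, Φ k y ≠ 0) (z0 : Fin n → ℝ) :
    ∀ᶠ t in 𝓝[≠] (0 : ℝ), ∀ k, Φ k (z0 + t • y) ≠ 0 := by
  rw [eventually_all]
  intro k
  by_cases hz : Φ k z0 = 0
  · filter_upwards [self_mem_nhdsWithin] with t ht
    rw [map_add, map_smul, hz, zero_add, smul_eq_mul]
    exact mul_ne_zero ht (hy k)
  · have hc : ContinuousAt (fun t : ℝ => Φ k (z0 + t • y)) 0 := by
      simp only [map_add, map_smul, smul_eq_mul]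
      fun_prop
    have := hc.eventually_ne (by simpa using hz : Φ k (z0 + (0 : ℝ) • y) ≠ 0)
    exact this.filter_mono nhdsWithin_le_nhds

/-- Relation of functionals on `Z`. -/
def grel (Z : Submodule ℝ (Fin n → ℝ)) (j i : Fin n) : Prop :=
  (∀ w ∈ Z, gg w j = gg w i) ∨ ∀ w ∈ Z, gg w j = -gg w i

/-- Norming sets of functionals. -/
def Norming (Z : Submodule ℝ (Fin n → ℝ)) (I : Finset (Fin n)) : Prop :=
  ∀ z ∈ Z, ∀ j, ∃ i ∈ I, |gg z j| ≤ |gg z i|

lemma exists_minimal_norming (Z : Submodule ℝ (Fin n → ℝ)) :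
    ∃ I : Finset (Fin n), Norming Z I ∧ ∀ i ∈ I, ∃ z ∈ Z, ∀ l ∈ I, l ≠ i → |gg z l| < |gg z i| := by
  classical
  have hex : ∃ k, ∃ I : Finset (Fin n), I.card = k ∧ Norming Z I :=
    ⟨_, Finset.univ, rfl, fun z _ j => ⟨j, Finset.mem_univ j, le_rfl⟩⟩
  obtain ⟨I, hIc, hI⟩ := Nat.find_spec hex
  refine ⟨I, hI, fun i hi => ?_⟩
  have hnot : ¬ Norming Z (I.erase i) := by
    intro h
    have h1 : (I.erase i).card < Nat.find hex := by
      rw [← hIc]
      exact Finset.card_erase_lt_of_mem hi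
    exact Nat.find_min hex h1 ⟨_, rfl, h⟩
  unfold Norming at hnot
  push Not at hnot
  obtain ⟨z, hz, j, hj⟩ := hnot
  obtain ⟨i', hi', hle⟩ := hI z hz j
  have : i' = i := by
    by_contra hne
    exact absurd hle (not_le.2 (hj i' (Finset.mem_erase.2 ⟨hne, hi'⟩)))
  subst this
  exact ⟨z, hz, fun l hl hne => (hj l (Finset.mem_erase.2 ⟨hne, hl⟩)).trans_le hle⟩

lemma line_cont (z y : Fin n → ℝ) (j : Fin n) : Continuous fun t : ℝ => gg (z + t • y) j := by
  unfold gg fs
  fun_prop

/-- A point at which `gg · i` is strictly larger than all unrelated functionals, with full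
support. -/
lemma exists_generic {I : Finset (Fin n)} (hI : Norming Z I) {i : Fin n} {z0 : Fin n → ℝ}
    (hz0 : z0 ∈ Z) (h0 : ∀ l ∈ I, l ≠ i → |gg z0 l| < |gg z0 i|) :
    ∃ z ∈ Z, (∀ j, |gg z j| < |gg z i| ∨ grel Z j i) ∧ ∀ l, z l ≠ 0 ∨ ∀ w ∈ Z, w l = 0 := by
  classical
  let ι := {j : Fin n // ¬ ∀ w ∈ Z, gg w j = gg w i} ⊕
    ({j : Fin n // ¬ ∀ w ∈ Z, gg w j = -gg w i} ⊕ {l : Fin n // ¬ ∀ w ∈ Z, w l = 0})
  let Φ : ι → Module.Dual ℝ (Fin n → ℝ) := Sum.elim (fun j => gl (j : Fin n) - gl i)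
    (Sum.elim (fun j => gl (j : Fin n) + gl i) (fun l => LinearMap.proj (l : Fin n)))
  have hΦ : ∀ k, ∃ x ∈ Z, Φ k x ≠ 0 := by
    rintro (⟨j, hj⟩ | ⟨j, hj⟩ | ⟨l, hl⟩)
    · push Not at hj
      obtain ⟨w, hw, h⟩ := hj
      refine ⟨w, hw, ?_⟩
      show gl j w - gl i w ≠ 0
      rw [gl_apply, gl_apply]
      exact sub_ne_zero.2 h
    · push Not at hj
      obtain ⟨w, hw, h⟩ := hj
      refine ⟨w, hw, ?_⟩
      show gl j w + gl i w ≠ 0
      rw [gl_apply, gl_apply]
      intro h'
      exact h (eq_neg_of_add_eq_zero_left h')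
    · push Not at hl
      obtain ⟨w, hw, h⟩ := hl
      exact ⟨w, hw, h⟩
  obtain ⟨y, hyZ, hy⟩ := Module.Dual.exists_forall_mem_ne_zero_of_forall_exists Z Φ hΦ
  have h1 : ∀ᶠ t in 𝓝 (0 : ℝ), ∀ l, l ∈ I → l ≠ i → |gg (z0 + t • y) l| < |gg (z0 + t • y) i| := by
    rw [eventually_all]
    intro l
    by_cases hl : l ∈ I ∧ l ≠ i
    · have hc1 : ContinuousAt (fun t : ℝ => |gg (z0 + t • y) l|) 0 :=
        (line_cont z0 y l).abs.continuousAt
      have hc2 : ContinuousAt (fun t : ℝ => |gg (z0 + t • y) i|) 0 :=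
        (line_cont z0 y i).abs.continuousAt
      have := hc1.eventually_lt hc2 (by simpa using h0 l hl.1 hl.2)
      exact this.mono fun t ht _ _ => ht
    · exact Eventually.of_forall fun t h2 h3 => absurd ⟨h2, h3⟩ hl
  obtain ⟨t, ht1, ht2⟩ :=
    ((h1.filter_mono nhdsWithin_le_nhds).and (generic_line Φ hy z0)).exists
  have hzZ : z0 + t • y ∈ Z := Z.add_mem hz0 (Z.smul_mem t hyZ)
  refine ⟨z0 + t • y, hzZ, fun j => ?_, fun l => ?_⟩
  · by_cases hj1 : ∀ w ∈ Z, gg w j = gg w i
    · exact Or.inr (Or.inl hj1)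
    by_cases hj2 : ∀ w ∈ Z, gg w j = -gg w i
    · exact Or.inr (Or.inr hj2)
    left
    have e1 := ht2 (Sum.inl ⟨j, hj1⟩)
    have e2 := ht2 (Sum.inr (Sum.inl ⟨j, hj2⟩))
    have e1' : gg (z0 + t • y) j - gg (z0 + t • y) i ≠ 0 := by
      rw [← gl_apply, ← gl_apply]; exact e1
    have e2' : gg (z0 + t • y) j + gg (z0 + t • y) i ≠ 0 := by
      rw [← gl_apply, ← gl_apply]; exact e2
    have hle : |gg (z0 + t • y) j| ≤ |gg (z0 + t • y) i| := by
      obtain ⟨i', hi', hle⟩ := hI _ hzZ j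
      by_cases h : i' = i
      · rwa [h] at hle
      · exact hle.trans (ht1 i' hi' h).le
    refine lt_of_le_of_ne hle fun heq => ?_
    rcases abs_eq_abs.1 heq with h | h
    · exact e1' (sub_eq_zero.2 h)
    · exact e2' (by rw [h]; ring)
  · by_cases hl : ∀ w ∈ Z, w l = 0
    · exact Or.inr hl
    · exact Or.inl (ht2 (Sum.inr (Sum.inr ⟨l, hl⟩)))

/-- The strictly active point. -/
lemma exists_strict (hn : 4 ≤ n) (hall : ∀ z ∈ Z, NM n z ≤ ‖gg z‖)
    (hdim : ∃ z1 ∈ Z, ∃ z2 ∈ Z, LinearIndependent ℝ ![z1, z2])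
    {I : Finset (Fin n)} (hI : Norming Z I) {i : Fin n} {z0 : Fin n → ℝ}
    (hz0 : z0 ∈ Z) (h0 : ∀ l ∈ I, l ≠ i → |gg z0 l| < |gg z0 i|) :
    ∃ z ∈ Z, NM n z < gg z i ∧ ∀ j, |gg z j| < gg z i ∨ grel Z j i := by
  classical
  obtain ⟨z1, hz1, hstr, hsupp⟩ := exists_generic hI hz0 h0
  by_contra hcon
  -- every nearby point has `NM = |gg i|`
  have hEq : ∀ z ∈ Z, (∀ j, |gg z j| < |gg z i| ∨ grel Z j i) → NM n z = |gg z i| := by
    intro z hz h
    refine le_antisymm ?_ ?_
    · refine (hall z hz).trans ?_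
      rw [pi_norm_le_iff_of_nonneg (abs_nonneg _)]
      intro j
      rcases h j with h | h | h
      · exact h.le
      · rw [h z hz]; exact le_rfl
      · rw [h z hz, norm_neg]; exact le_rfl
    · by_contra hlt
      push Not at hlt
      rcases le_total 0 (gg z i) with hs | hs
      · rw [abs_of_nonneg hs] at hlt h
        exact hcon ⟨z, hz, hlt, h⟩
      · rw [abs_of_nonpos hs] at hlt h
        refine hcon ⟨-z, Z.neg_mem hz, ?_, ?_⟩
        · have e1 : NM n (-z) = NM n z := by
            have := NM_smul (n := n) (-1) z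
            simpa using this
          have e2 : gg (-z) i = -gg z i := by
            have := congrFun (gg_smul (-1) z) i
            simpa using this
          rw [e1, e2]; exact hlt
        · intro j
          have e2 : ∀ j, gg (-z) j = -gg z j := fun j => by
            have := congrFun (gg_smul (-1) z) j
            simpa using this
          rw [e2, e2, abs_neg]
          exact h j
  have hz1ne : z1 ≠ 0 := by
    rintro rfl
    obtain ⟨w1, hw1, w2, hw2, hli⟩ := hdim
    have hli' := LinearIndependent.pair_iff.1 hli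
    have : w1 = 0 := by
      funext l
      rcases hsupp l with h | h
      · exact absurd rfl h
      · exact h w1 hw1
    have := hli' 1 0 (by rw [this]; simp)
    exact one_ne_zero this.1
  have hgi : gg z1 i ≠ 0 := by
    intro h
    have h1 := hEq z1 hz1 hstr
    rw [h, abs_zero] at h1
    have h2 := le_NM hn z1
    have h3 := ep_lt hn
    have h4 := l1_pos hz1ne
    nlinarith
  set ε := ep n with hε
  have hε0 : 0 < ε := ep_pos hn
  set s : ℝ := (SignType.sign (gg z1 i) : ℝ) with hs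
  set ℓ : (Fin n → ℝ) → ℝ := fun z => (s * gg z i - (1 - 2 * ε) * sg z1 z) / ε with hℓ
  -- the polynomial identity
  have hid : ∀ z ∈ Z, FF n z = ℓ z ^ (2 * (n + 1)) := by
    intro z hz
    set y := z - z1 with hy
    have hyZ : y ∈ Z := Z.sub_mem hz hz1
    have hloc : ∀ᶠ t in 𝓝 (0 : ℝ), FF n (z1 + t • y) - ℓ (z1 + t • y) ^ (2 * (n + 1)) = 0 := by
      have hev1 : ∀ j, ∀ᶠ t in 𝓝 (0 : ℝ),
          |gg (z1 + t • y) j| < |gg (z1 + t • y) i| ∨ grel Z j i := by
        intro j
        rcases hstr j with h | h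
        · have hc1 : ContinuousAt (fun t : ℝ => |gg (z1 + t • y) j|) 0 :=
            (line_cont z1 y j).abs.continuousAt
          have hc2 : ContinuousAt (fun t : ℝ => |gg (z1 + t • y) i|) 0 :=
            (line_cont z1 y i).abs.continuousAt
          have := hc1.eventually_lt hc2 (by simpa using h)
          exact this.mono fun t ht => Or.inl ht
        · exact Eventually.of_forall fun t => Or.inr h
      have hsignev : ∀ {φ : ℝ → ℝ}, Continuous φ → φ 0 ≠ 0 →
          ∀ᶠ t in 𝓝 (0 : ℝ), SignType.sign (φ t) = SignType.sign (φ 0) := by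
        intro φ hφ h
        rcases lt_or_gt_of_ne h with h3 | h3
        · have : ∀ᶠ t in 𝓝 (0 : ℝ), φ t < 0 :=
            hφ.continuousAt.eventually_lt continuousAt_const h3
          filter_upwards [this] with t ht
          rw [sign_neg ht, sign_neg h3]
        · have : ∀ᶠ t in 𝓝 (0 : ℝ), 0 < φ t :=
            continuousAt_const.eventually_lt hφ.continuousAt h3
          filter_upwards [this] with t ht
          rw [sign_pos ht, sign_pos h3]
      have hev2 : ∀ l, ∀ᶠ t in 𝓝 (0 : ℝ),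
          (SignType.sign (z1 l) : ℝ) * (z1 + t • y) l = |(z1 + t • y) l| := by
        intro l
        rcases hsupp l with h | h
        · have hc : Continuous fun t : ℝ => (z1 + t • y) l := by
            simp only [Pi.add_apply, Pi.smul_apply, smul_eq_mul]
            fun_prop
          have e0 : (z1 + (0 : ℝ) • y) l = z1 l := by simp
          have := hsignev hc (by rw [e0]; exact h)
          filter_upwards [this] with t ht
          rw [e0] at ht
          rw [← ht]
          exact sign_mul_self _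
        · refine Eventually.of_forall fun t => ?_
          have : (z1 + t • y) l = 0 := h _ (Z.add_mem hz1 (Z.smul_mem t hyZ))
          rw [this]; simp
      have hev3 : ∀ᶠ t in 𝓝 (0 : ℝ), s * gg (z1 + t • y) i = |gg (z1 + t • y) i| := by
        have e0 : gg (z1 + (0 : ℝ) • y) i = gg z1 i := by simp
        have := hsignev (line_cont z1 y i) (by rw [e0]; exact hgi)
        filter_upwards [this] with t ht
        rw [e0] at ht
        rw [hs, ← ht]
        exact sign_mul_self _
      filter_upwards [eventually_all.2 hev1, eventually_all.2 hev2, hev3] with t ht1 ht2 ht3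
      have hmem : z1 + t • y ∈ Z := Z.add_mem hz1 (Z.smul_mem t hyZ)
      have h1 := hEq _ hmem ht1
      have h2 : l1 (z1 + t • y) = sg z1 (z1 + t • y) := by
        unfold l1 sg
        exact Finset.sum_congr rfl fun l _ => (ht2 l).symm
      unfold NM at h1
      rw [h2, ← ht3] at h1
      have h3 : ℓ (z1 + t • y) = EE n (z1 + t • y) := by
        simp only [hℓ]
        rw [div_eq_iff hε0.ne']
        linarith
      rw [h3]
      unfold EE
      rw [← Real.rpow_natCast, ← Real.rpow_mul (FF_nonneg _)]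
      have : (1 / (2 * (n + 1) : ℝ)) * ((2 * (n + 1) : ℕ) : ℝ) = 1 := by
        push_cast
        field_simp
      rw [this, Real.rpow_one, sub_self]
    have hana : ∀ t, AnalyticAt ℝ (fun t : ℝ => FF n (z1 + t • y) -
        ℓ (z1 + t • y) ^ (2 * (n + 1))) t := by
      intro t
      simp only [hℓ]
      unfold FF qf gg sg fs
      simp only [Pi.add_apply, Pi.smul_apply, smul_eq_mul, div_eq_mul_inv]
      fun_prop
    have h3 := eq_of_eventually hana hloc 1
    have h4 : z1 + (1 : ℝ) • y = z := by rw [hy, one_smul]; abel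
    simp only [h4] at h3
    linarith
  obtain ⟨w1, hw1, w2, hw2, hli⟩ := hdim
  have hli' := LinearIndependent.pair_iff.1 hli
  have hlin : ∀ (a c : ℝ) (x y : Fin n → ℝ), ℓ (a • x + c • y) = a * ℓ x + c * ℓ y := by
    intro a c x y
    have e1 : gg (a • x + c • y) i = a * gg x i + c * gg y i := by
      rw [gg_add, gg_smul, gg_smul]; rfl
    have e2 : sg z1 (a • x + c • y) = a * sg z1 x + c * sg z1 y := by
      unfold sg
      rw [Finset.mul_sum, Finset.mul_sum, ← Finset.sum_add_distrib]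
      exact Finset.sum_congr rfl fun l _ => by
        simp only [Pi.add_apply, Pi.smul_apply, smul_eq_mul]; ring
    simp only [hℓ]
    rw [e1, e2]
    ring
  have hzero : ∃ w ∈ Z, w ≠ 0 ∧ ℓ w = 0 := by
    by_cases h1 : ℓ w1 = 0
    · refine ⟨w1, hw1, ?_, h1⟩
      intro h
      exact one_ne_zero (hli' 1 0 (by rw [h]; simp)).1
    · refine ⟨ℓ w2 • w1 + (-ℓ w1) • w2, Z.add_mem (Z.smul_mem _ hw1) (Z.smul_mem _ hw2), ?_, ?_⟩
      · intro h
        exact h1 (neg_eq_zero.1 (hli' _ _ h).2)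
      · rw [hlin]; ring
  obtain ⟨w, hwZ, hw0, hw⟩ := hzero
  have h5 := hid w hwZ
  rw [hw, zero_pow (by omega)] at h5
  exact (FF_pos hw0).ne' h5

end Q92.KX
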