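import Pool.Agent.Q92.KX.Poly

/-!
Proportionality classes of coordinates.
-/

open Set Filter Topology Polynomial

namespace Q92.KX

variable {n : ℕ}

lemma coeff_lin_pow (w a : ℂ) (N s : ℕ) :
    ((C w + C a * X) ^ N : ℂ[X]).coeff s = w ^ (N - s) * (N.choose s : ℂ) * a ^ s := by
  have h : ((C w + C a * X) ^ N : ℂ[X]) = ((X + C w) ^ N).comp (C a * X) := by
    rw [pow_comp, add_comp, X_comp, C_comp, add_comm]
  rw [h, comp_C_mul_X_coeff, coeff_X_add_C_pow]

lemma vander {ι : Type*} (s t : Finset ι) (c ρ : ι → ℂ) (n : ℕ)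
    (hz : ∀ k < n, ∑ l ∈ s, c l * ρ l ^ k + ∑ l ∈ t, c l * ρ l ^ k = 0)
    (hs : ∀ l ∈ s, ρ l = 0) (ht : ∀ l ∈ t, ρ l ≠ 0) (hcard : t.card < n) :
    ∑ l ∈ s, c l = 0 := by
  set Q : ℂ[X] := ∏ l ∈ t, (X - C (ρ l)) with hQ
  have hdeg : Q.natDegree = t.card := by
    rw [hQ, natDegree_prod_of_monic _ _ fun l _ => monic_X_sub_C _]
    simp
  have key : ∑ l ∈ s, c l * Q.eval (ρ l) + ∑ l ∈ t, c l * Q.eval (ρ l) = 0 := by
    have e : ∀ u : Finset ι, ∑ l ∈ u, c l * Q.eval (ρ l) =
        ∑ k ∈ Finset.range (t.card + 1), Q.coeff k * ∑ l ∈ u, c l * ρ l ^ k := by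
      intro u
      have e1 : ∀ l, c l * Q.eval (ρ l) =
          ∑ k ∈ Finset.range (t.card + 1), Q.coeff k * (c l * ρ l ^ k) := by
        intro l
        rw [eval_eq_sum_range, hdeg, Finset.mul_sum]
        exact Finset.sum_congr rfl fun k _ => by ring
      rw [Finset.sum_congr rfl fun l _ => e1 l, Finset.sum_comm]
      exact Finset.sum_congr rfl fun k _ => by rw [Finset.mul_sum]
    rw [e s, e t, ← Finset.sum_add_distrib]
    refine Finset.sum_eq_zero fun k hk => ?_
    rw [← mul_add, hz k (by rw [Finset.mem_range] at hk; omega), mul_zero]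
  have h2 : ∑ l ∈ t, c l * Q.eval (ρ l) = 0 := by
    refine Finset.sum_eq_zero fun l hl => ?_
    have : Q.eval (ρ l) = 0 := by
      rw [hQ, eval_prod]
      exact Finset.prod_eq_zero hl (by simp)
    rw [this, mul_zero]
  have h3 : ∑ l ∈ s, c l * Q.eval (ρ l) = (∑ l ∈ s, c l) * Q.eval 0 := by
    rw [Finset.sum_mul]
    exact Finset.sum_congr rfl fun l hl => by rw [hs l hl]
  have h4 : Q.eval 0 ≠ 0 := by
    rw [hQ, eval_prod, Finset.prod_ne_zero_iff]
    intro l hl
    simpa using ht l hl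
  rw [h2, add_zero, h3] at key
  exact (mul_eq_zero.1 key).resolve_right h4

variable {Z : Submodule ℝ (Fin n → ℝ)} {P : (Fin n → ℝ) →ₗ[ℝ] (Fin n → ℝ)}

/-- Two coordinates are proportional on `Z`. -/
def rel (Z : Submodule ℝ (Fin n → ℝ)) (b : Fin n → ℝ) (l l' : Fin n) : Prop :=
  ∀ z ∈ Z, z l * b l' = z l' * b l

/-- A generic direction killing exactly the class of `l0`. -/
lemma exists_dir {b : Fin n → ℝ} (hb : BP Z b) {l0 : Fin n} (hl0 : b l0 ≠ 0) :
    ∃ a ∈ Z, ∀ l, (rel Z b l l0 → a l = 0) ∧ (¬ rel Z b l l0 → a l ≠ 0) := by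
  classical
  set φ : {l : Fin n // ¬ rel Z b l l0} → Module.Dual ℝ (Fin n → ℝ) := fun l =>
    b l0 • LinearMap.proj (l : Fin n) - b (l : Fin n) • LinearMap.proj l0 with hφ
  have hφe : ∀ l z, φ l z = z l * b l0 - z l0 * b l := by
    intro l z
    simp only [hφ, LinearMap.sub_apply, LinearMap.smul_apply, LinearMap.proj_apply, smul_eq_mul]
    ring
  obtain ⟨z, hzZ, hz⟩ := Module.Dual.exists_forall_mem_ne_zero_of_forall_exists Z φ (by
    intro l
    have hl := l.2
    unfold rel at hl
    push Not at hl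
    obtain ⟨z, hzZ, hz⟩ := hl
    exact ⟨z, hzZ, by rw [hφe]; exact sub_ne_zero.2 hz⟩)
  refine ⟨z - (z l0 / b l0) • b, Z.sub_mem hzZ (Z.smul_mem _ hb.mem), fun l => ⟨?_, ?_⟩⟩
  · intro h
    have h1 := h z hzZ
    simp only [Pi.sub_apply, Pi.smul_apply, smul_eq_mul]
    rw [div_mul_eq_mul_div, sub_eq_zero, eq_div_iff hl0, h1]
  · intro h
    have h1 := hz ⟨l, h⟩
    rw [hφe] at h1
    simp only [Pi.sub_apply, Pi.smul_apply, smul_eq_mul]
    rw [div_mul_eq_mul_div, sub_ne_zero, ne_eq, eq_div_iff hl0]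
    exact sub_ne_zero.1 h1

lemma bf_smul_right (z v : Fin n → ℝ) (t : ℝ) : bf n z (t • v) = t * bf n z v := by
  unfold bf
  rw [Finset.mul_sum]
  exact Finset.sum_congr rfl fun i _ => by simp only [Pi.smul_apply, smul_eq_mul]; ring

lemma qf_pos {x : Fin n → ℝ} (hx : x ≠ 0) : 0 < qf n x := by
  obtain ⟨i, hi⟩ := Function.ne_iff.1 hx
  refine Finset.sum_pos' (fun j _ => mul_nonneg (dw_pos j).le (sq_nonneg _))
    ⟨i, Finset.mem_univ i, ?_⟩
  have : x i ≠ 0 := hi
  have h2 := dw_pos i
  positivity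

/-- Class sums vanish. -/
lemma class_sum {b : Fin n → ℝ} (hb : BP Z b)
    (hdim : ∃ z1 ∈ Z, ∃ z2 ∈ Z, LinearIndependent ℝ ![z1, z2]) {v : Fin n → ℝ}
    (hv : ∀ z ∈ Z, DD n z v = 0) {l0 : Fin n} (hl0 : b l0 ≠ 0) [DecidablePred fun l => rel Z b l l0] :
    ∑ l with rel Z b l l0, v l * b l ^ (2 * n + 1) = 0 := by
  obtain ⟨a, haZ, ha⟩ := exists_dir hb hl0
  -- `a ≠ 0`
  have ha0 : a ≠ 0 := by
    intro h0
    have hrel : ∀ l, rel Z b l l0 := by
      intro l
      by_contra hc
      exact (ha l).2 hc (by rw [h0]; rfl)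
    obtain ⟨z1, hz1, z2, hz2, hli⟩ := hdim
    have hli' := LinearIndependent.pair_iff.1 hli
    have e : ∀ z ∈ Z, z = (z l0 / b l0) • b := by
      intro z hz
      funext l
      have := hrel l z hz
      simp only [Pi.smul_apply, smul_eq_mul]
      rw [div_mul_eq_mul_div, eq_div_iff hl0, this]
    by_cases h1 : z1 l0 = 0
    · have h2 := e z1 hz1
      rw [h1, zero_div, zero_smul] at h2
      have := hli' 1 0 (by rw [h2]; simp)
      exact one_ne_zero this.1
    · have h2 : z2 l0 • z1 + (-z1 l0) • z2 = 0 := by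
        have e1 := e z1 hz1
        have e2 := e z2 hz2
        funext l
        have f1 := congrFun e1 l
        have f2 := congrFun e2 l
        simp only [Pi.smul_apply, smul_eq_mul] at f1 f2
        simp only [Pi.add_apply, Pi.smul_apply, smul_eq_mul, Pi.zero_apply]
        rw [f1, f2]
        field_simp
        ring
      have := (hli' _ _ h2).2
      exact h1 (neg_eq_zero.1 this)
  set A := qf n a with hA
  set β := bf n b a with hβ
  set Cc := qf n b with hCc
  have hA0 : 0 < A := qf_pos ha0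
  have hal0 : a l0 = 0 := (ha l0).1 fun z _ => rfl
  have hline : ∀ t : ℝ, qf n (b + t • a) = A * t ^ 2 + 2 * β * t + Cc := by
    intro t
    rw [qf_add, qf_smul, bf_smul_right]
    ring
  have hdisc : 0 < A * Cc - β ^ 2 := by
    have h1 : 0 < qf n (b + (-β / A) • a) := by
      refine qf_pos fun h => ?_
      have := congrFun h l0
      simp only [Pi.add_apply, Pi.smul_apply, smul_eq_mul, hal0, mul_zero, add_zero,
        Pi.zero_apply] at this
      exact hl0 this
    rw [hline] at h1
    have h2 : A * (A * (-β / A) ^ 2 + 2 * β * (-β / A) + Cc) = A * Cc - β ^ 2 := by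
      field_simp
      ring
    rw [← h2]
    positivity
  set r := √(A * Cc - β ^ 2) with hr
  have hr0 : 0 < r := Real.sqrt_pos.2 hdisc
  have hr2 : r ^ 2 = A * Cc - β ^ 2 := Real.sq_sqrt hdisc.le
  set t0 : ℂ := ⟨-β / A, r / A⟩ with ht0
  have ht0im : t0.im ≠ 0 := by
    show r / A ≠ 0
    positivity
  have hroot : (A : ℂ) * t0 ^ 2 + 2 * β * t0 + Cc = 0 := by
    apply Complex.ext
    · simp only [ht0, pow_two, Complex.add_re, Complex.mul_re, Complex.ofReal_re,
        Complex.ofReal_im, Complex.mul_im, Complex.zero_re, Complex.re_ofNat, Complex.im_ofNat]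
      field_simp
      nlinarith
    · simp only [ht0, pow_two, Complex.add_im, Complex.mul_re, Complex.ofReal_re,
        Complex.ofReal_im, Complex.mul_im, Complex.zero_im, Complex.re_ofNat, Complex.im_ofNat]
      field_simp
      ring
  set W : Fin n → ℂ := fun l => (b l : ℂ) + t0 * a l with hW
  set P1 : ℂ[X] := ∑ l, C (v l : ℂ) * (C (W l) + C (a l : ℂ) * X) ^ (2 * n + 1) with hP1
  set P3 : ℂ[X] := ∑ l, C ((dw n l * v l : ℝ) : ℂ) * (C (W l) + C (a l : ℂ) * X) with hP3
  set P2 : ℂ[X] := (C (2 * (β + A * t0)) + C (A : ℂ) * X) ^ n * P3 with hP2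
  have hid : P1 + X ^ n * P2 = 0 := by
    refine eq_zero_of_infinite_isRoot _ ?_
    refine Set.Infinite.mono (s := Set.range fun t : ℝ => (t : ℂ) - t0) ?_ ?_
    · rintro _ ⟨t, rfl⟩
      have hz : b + t • a ∈ Z := Z.add_mem hb.mem (Z.smul_mem t haZ)
      have h1 := hv _ hz
      unfold DD at h1
      rw [hline] at h1
      have h2 := congrArg (fun x : ℝ => (x : ℂ)) h1
      show eval _ _ = 0
      simp only [hP1, hP2, hP3, eval_add, eval_mul, eval_pow, eval_X, eval_C, eval_finsetSum]
      have e1 : ∀ l, W l + (a l : ℂ) * ((t : ℂ) - t0) = ((b + t • a) l : ℝ) := by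
        intro l
        simp only [hW, Pi.add_apply, Pi.smul_apply, smul_eq_mul]
        push_cast
        ring
      simp only [e1]
      unfold bf at h2
      rw [← mul_assoc, ← mul_pow]
      have e2 : ((t : ℂ) - t0) * (2 * (β + A * t0) + A * ((t : ℂ) - t0)) =
          ((A * t ^ 2 + 2 * β * t + Cc : ℝ) : ℂ) := by
        push_cast
        linear_combination -hroot
      rw [e2]
      push_cast at h2 ⊢
      rw [← h2]
      congr 1
      congr 1
      exact Finset.sum_congr rfl fun l _ => by ring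
    · refine Set.infinite_range_of_injective fun t t' h => ?_
      simpa using h
  have hcoeff : ∀ s < n, ∑ l, (v l : ℂ) * (W l ^ (2 * n + 1 - s) * (a l : ℂ) ^ s) = 0 := by
    intro s hs
    have h1 := congrArg (fun p : ℂ[X] => p.coeff s) hid
    simp only [coeff_add, coeff_zero] at h1
    rw [coeff_X_pow_mul', if_neg (by omega), add_zero, hP1, finsetSum_coeff] at h1
    simp only [coeff_C_mul, coeff_lin_pow] at h1
    have hch : ((2 * n + 1).choose s : ℂ) ≠ 0 := by
      have := Nat.choose_pos (n := 2 * n + 1) (k := s) (by omega)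
      exact_mod_cast this.ne'
    have h2 : ((2 * n + 1).choose s : ℂ) *
        ∑ l, (v l : ℂ) * (W l ^ (2 * n + 1 - s) * (a l : ℂ) ^ s) = 0 := by
      rw [← h1, Finset.mul_sum]
      exact Finset.sum_congr rfl fun l _ => by ring
    exact (mul_eq_zero.1 h2).resolve_left hch
  -- nonvanishing
  have hWne : ∀ l, b l ≠ 0 → W l ≠ 0 := by
    intro l hl h0
    have h1 := congrArg Complex.im h0
    simp only [hW, Complex.add_im, Complex.ofReal_im, Complex.mul_im, Complex.ofReal_re, mul_zero,
      zero_add, Complex.zero_im] at h1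
    rcases mul_eq_zero.1 h1 with h | h
    · exact ht0im h
    · have h2 := congrArg Complex.re h0
      simp only [hW, h, Complex.ofReal_zero, mul_zero, add_zero, Complex.ofReal_re,
        Complex.zero_re] at h2
      exact hl h2
  set c : Fin n → ℂ := fun l => (v l : ℂ) * W l ^ (2 * n + 1) with hc
  set ρ : Fin n → ℂ := fun l => (a l : ℂ) / W l with hρ
  have hb0 : ∀ l, ¬ rel Z b l l0 → b l ≠ 0 := by
    intro l hl h0
    refine hl fun z hz => ?_
    rcases hb.supp l with h | h
    · exact absurd h0 h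
    · rw [h z hz, h0, zero_mul, mul_zero]
  have hterm : ∀ l, ∀ s < n, (v l : ℂ) * (W l ^ (2 * n + 1 - s) * (a l : ℂ) ^ s) =
      c l * ρ l ^ s := by
    intro l s hs
    by_cases hl : b l = 0
    · have hrel : rel Z b l l0 := by
        by_contra h
        exact hb0 l h hl
      have hal := (ha l).1 hrel
      have hWl : W l = 0 := by simp [hW, hl, hal]
      simp only [hc, hWl]
      rw [zero_pow (by omega), zero_pow (by omega)]
      simp
    · have hWl := hWne l hl
      simp only [hc, hρ]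
      rw [div_pow]
      have : W l ^ (2 * n + 1) = W l ^ (2 * n + 1 - s) * W l ^ s := by
        rw [← pow_add]
        congr 1
        omega
      rw [this]
      field_simp
  have hfin := vander (Finset.univ.filter fun l => rel Z b l l0)
    (Finset.univ.filter fun l => ¬ rel Z b l l0) c ρ n (by
      intro k hk
      rw [Finset.sum_filter_add_sum_filter_not, ← hcoeff k hk]
      exact Finset.sum_congr rfl fun l _ => (hterm l k hk).symm)
    (by
      intro l hl
      rw [Finset.mem_filter] at hl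
      simp [hρ, (ha l).1 hl.2])
    (by
      intro l hl
      rw [Finset.mem_filter] at hl
      refine div_ne_zero ?_ (hWne l (hb0 l hl.2))
      exact_mod_cast (ha l).2 hl.2)
    (by
      have h1 : (Finset.univ.filter fun l => ¬ rel Z b l l0) ⊂ Finset.univ := by
        rw [Finset.filter_ssubset]
        exact ⟨l0, Finset.mem_univ _, fun h => h fun z _ => rfl⟩
      have := Finset.card_lt_card h1
      simpa using this)
  have hreal : ((∑ l with rel Z b l l0, v l * b l ^ (2 * n + 1) : ℝ) : ℂ) = 0 := by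
    push_cast
    rw [← hfin]
    refine Finset.sum_congr rfl fun l hl => ?_
    rw [Finset.mem_filter] at hl
    simp [hc, hW, (ha l).1 hl.2]
  exact_mod_cast hreal

end Q92.KX
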