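import Pool.Agent.Q92.KX.Norm

/-!
The hyperplane `ker f` has relative projection constant `2 - 2 / n`.
-/

open Set Filter Topology

namespace Q92.KX

variable {n : ℕ}

/-- The optimal projection onto `ker f`. -/
noncomputable def Pv (x : Fin n → ℝ) : Fin n → ℝ := fun i => x i - fs x / n

lemma fs_Pv (hn : 4 ≤ n) (x : Fin n → ℝ) : fs (Pv x) = 0 := by
  have : (n : ℝ) ≠ 0 := by
    have : 0 < n := by omega
    positivity
  unfold Pv
  unfold fs
  rw [Finset.sum_sub_distrib, Finset.sum_const, Finset.card_univ, Fintype.card_fin, nsmul_eq_mul]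
  field_simp
  ring

/-- Averaged power inequality for the rows of `Pv`. -/
lemma Pv_abs_le (hn : 4 ≤ n) (x : Fin n → ℝ) (i : Fin n) :
    |Pv x i| ≤ ∑ j, (if j = i then 1 - 1 / (n : ℝ) else 1 / n) * |x j| := by
  have hn0 : (0 : ℝ) < n := by exact_mod_cast (by omega : 0 < n)
  have hn1 : 1 / (n : ℝ) ≤ 1 := by rw [div_le_one hn0]; exact_mod_cast (by omega : 1 ≤ n)
  have e : Pv x i = ∑ j, (if j = i then 1 - 1 / (n : ℝ) else -(1 / n)) * x j := by
    have h1 : ∀ j, (if j = i then 1 - 1 / (n : ℝ) else -(1 / n)) * x j =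
        (if j = i then x j else 0) - (1 / n) * x j := by
      intro j
      split_ifs <;> ring
    rw [Finset.sum_congr rfl fun j _ => h1 j, Finset.sum_sub_distrib, Finset.sum_ite_eq',
      if_pos (Finset.mem_univ i), ← Finset.mul_sum]
    unfold Pv fs
    ring
  rw [e]
  refine (Finset.abs_sum_le_sum_abs _ _).trans (Finset.sum_le_sum fun j _ => ?_)
  rw [abs_mul]
  refine mul_le_mul_of_nonneg_right ?_ (abs_nonneg _)
  split_ifs
  · rw [abs_of_nonneg (by linarith)]
  · rw [abs_neg, abs_of_nonneg (by positivity)]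

lemma row_sum (hn : 4 ≤ n) (i : Fin n) :
    ∑ j, (if j = i then 1 - 1 / (n : ℝ) else 1 / n) = 2 - 2 / n := by
  have hn0 : (0 : ℝ) < n := by exact_mod_cast (by omega : 0 < n)
  have h1 : ∀ j : Fin n, (if j = i then 1 - 1 / (n : ℝ) else 1 / n) =
      (if j = i then 1 - 2 / (n : ℝ) else 0) + 1 / n := by
    intro j
    split_ifs <;> ring
  rw [Finset.sum_congr rfl fun j _ => h1 j, Finset.sum_add_distrib, Finset.sum_ite_eq',
    if_pos (Finset.mem_univ i), Finset.sum_const, Finset.card_univ, Fintype.card_fin,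
    nsmul_eq_mul]
  field_simp
  ring

lemma col_sum (hn : 4 ≤ n) (j : Fin n) :
    ∑ i, (if j = i then 1 - 1 / (n : ℝ) else 1 / n) = 2 - 2 / n := by
  have h := row_sum hn j
  rw [← h]
  refine Finset.sum_congr rfl fun i _ => ?_
  by_cases hij : j = i
  · rw [if_pos hij, if_pos hij.symm]
  · rw [if_neg hij, if_neg (Ne.symm hij)]

lemma Pv_pow_le (hn : 4 ≤ n) (x : Fin n → ℝ) (k : ℕ) :
    ∑ i, |Pv x i| ^ (k + 1) ≤ (2 - 2 / n) ^ (k + 1) * ∑ i, |x i| ^ (k + 1) := by
  have hn0 : (0 : ℝ) < n := by exact_mod_cast (by omega : 0 < n)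
  have hn4 : (4 : ℝ) ≤ n := by exact_mod_cast hn
  have hn1 : 1 / (n : ℝ) ≤ 1 := by rw [div_le_one hn0]; exact_mod_cast (by omega : 1 ≤ n)
  set κ : ℝ := 2 - 2 / n with hκ
  have hκ0 : 0 < κ := by
    have : 2 / (n : ℝ) ≤ 1 := by rw [div_le_one hn0]; linarith
    linarith
  set a : Fin n → Fin n → ℝ := fun i j => if j = i then 1 - 1 / (n : ℝ) else 1 / n with ha
  have ha0 : ∀ i j, 0 ≤ a i j := by
    intro i j
    simp only [ha]
    split_ifs
    · linarith
    · positivity
  have hrow : ∀ i, |Pv x i| ^ (k + 1) ≤ κ ^ k * ∑ j, a i j * |x j| ^ (k + 1) := by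
    intro i
    have h1 := (convexOn_pow (k + 1)).map_sum_le (t := Finset.univ) (w := fun j => a i j / κ)
      (p := fun j => |x j|) (fun j _ => div_nonneg (ha0 i j) hκ0.le) (by
        rw [← Finset.sum_div, row_sum hn i, div_self hκ0.ne']) (fun j _ => abs_nonneg (x j))
    simp only [smul_eq_mul] at h1
    have h2 : |Pv x i| ≤ κ * ∑ j, a i j / κ * |x j| := by
      rw [Finset.mul_sum]
      refine (Pv_abs_le hn x i).trans (le_of_eq (Finset.sum_congr rfl fun j _ => ?_))
      show a i j * |x j| = κ * (a i j / κ * |x j|)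
      rw [← mul_assoc, mul_div_cancel₀ _ hκ0.ne']
    calc |Pv x i| ^ (k + 1) ≤ (κ * ∑ j, a i j / κ * |x j|) ^ (k + 1) :=
          pow_le_pow_left₀ (abs_nonneg _) h2 _
      _ = κ ^ (k + 1) * (∑ j, a i j / κ * |x j|) ^ (k + 1) := mul_pow _ _ _
      _ ≤ κ ^ (k + 1) * ∑ j, a i j / κ * |x j| ^ (k + 1) :=
          mul_le_mul_of_nonneg_left h1 (by positivity)
      _ = κ ^ k * ∑ j, a i j * |x j| ^ (k + 1) := by
          rw [Finset.mul_sum, Finset.mul_sum]
          refine Finset.sum_congr rfl fun j _ => ?_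
          rw [pow_succ κ k]
          field_simp
  refine (Finset.sum_le_sum fun i _ => hrow i).trans (le_of_eq ?_)
  rw [← Finset.mul_sum, Finset.sum_comm, pow_succ, mul_assoc]
  congr 1
  rw [Finset.mul_sum]
  refine Finset.sum_congr rfl fun j _ => ?_
  rw [← Finset.sum_mul]
  congr 1
  exact col_sum hn j

lemma NM_Pv_le (hn : 4 ≤ n) (x : Fin n → ℝ) : NM n (Pv x) ≤ (2 - 2 / n) * NM n x := by
  have hn0 : (0 : ℝ) < n := by exact_mod_cast (by omega : 0 < n)
  have hn4 : (4 : ℝ) ≤ n := by exact_mod_cast hn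
  set κ : ℝ := 2 - 2 / n with hκ
  have hκ1 : 3 / 2 ≤ κ := by
    have : 2 / (n : ℝ) ≤ 1 / 2 := by rw [div_le_iff₀ hn0]; linarith
    linarith
  have h1 : l1 (Pv x) ≤ κ * l1 x := by
    have := Pv_pow_le hn x 0
    simpa [l1] using this
  have h2 : qf n (Pv x) ≤ κ ^ 2 * qf n x := by
    have e1 : qf n (Pv x) ≤ ∑ i, Pv x i ^ 2 := Finset.sum_le_sum fun i _ => by
      have := dw_le i
      nlinarith [sq_nonneg (Pv x i)]
    have e2 : ∑ i, Pv x i ^ 2 ≤ ∑ i, x i ^ 2 := by
      have : ∀ i, Pv x i ^ 2 = x i ^ 2 - 2 * (fs x / n) * x i + (fs x / n) ^ 2 := fun i => by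
        unfold Pv; ring
      rw [Finset.sum_congr rfl fun i _ => this i, Finset.sum_add_distrib, Finset.sum_sub_distrib,
        ← Finset.mul_sum, Finset.sum_const, Finset.card_univ, Fintype.card_fin, nsmul_eq_mul]
      have h3 : ∑ i, x i = fs x := rfl
      rw [h3]
      have h4 : 2 * (fs x / n) * fs x = 2 * (n * (fs x / n) ^ 2) := by field_simp
      have h5 : 0 ≤ n * (fs x / n) ^ 2 := by positivity
      linarith
    have e3 : ∑ i, x i ^ 2 ≤ 2 * qf n x := by
      unfold qf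
      rw [Finset.mul_sum]
      refine Finset.sum_le_sum fun i _ => ?_
      have := dw_ge i
      nlinarith [sq_nonneg (x i)]
    have e4 := qf_nonneg x
    have e5 : 2 ≤ κ ^ 2 := by nlinarith
    have e6 := mul_le_mul_of_nonneg_right e5 e4
    linarith
  have h3 : FF n (Pv x) ≤ κ ^ (2 * (n + 1)) * FF n x := by
    unfold FF
    rw [mul_add (κ ^ (2 * (n + 1)))]
    refine add_le_add ?_ ?_
    · have := Pv_pow_le hn x (2 * n + 1)
      have e : ∀ y : Fin n → ℝ, ∑ i, |y i| ^ (2 * n + 1 + 1) = ∑ i, y i ^ (2 * (n + 1)) :=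
        fun y => Finset.sum_congr rfl fun i _ => by
          rw [show 2 * n + 1 + 1 = 2 * (n + 1) by ring, pow_mul, pow_mul, sq_abs]
      rw [e, e] at this
      exact this
    · rw [pow_mul, ← mul_pow]
      exact pow_le_pow_left₀ (qf_nonneg _) h2 _
  have h4 : EE n (Pv x) ≤ κ * EE n x := by
    unfold EE
    refine (Real.rpow_le_rpow (FF_nonneg _) h3 (by positivity)).trans (le_of_eq ?_)
    rw [Real.mul_rpow (by positivity) (FF_nonneg x)]
    congr 1
    rw [← Real.rpow_natCast, ← Real.rpow_mul (by linarith)]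
    have : ((2 * (n + 1) : ℕ) : ℝ) * (1 / (2 * (n + 1) : ℝ)) = 1 := by
      push_cast
      field_simp
    rw [this, Real.rpow_one]
  have h5 := ep_pos hn
  have h6 := ep_lt hn
  have h7 := mul_le_mul_of_nonneg_left h1 (show 0 ≤ 1 - 2 * ep n by linarith)
  have h8 := mul_le_mul_of_nonneg_left h4 h5.le
  unfold NM
  calc _ ≤ (1 - 2 * ep n) * (κ * l1 x) + ep n * (κ * EE n x) := add_le_add h7 h8
    _ = _ := by ring

lemma gg_Pv_le (hn : 4 ≤ n) (x : Fin n → ℝ) (i : Fin n) :
    gg (Pv x) i ≤ (2 - 2 / n) * NN n x := by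
  have hn0 : (0 : ℝ) < n := by exact_mod_cast (by omega : 0 < n)
  have h1 : gg (Pv x) i = 2 * x i - 2 * (fs x / n) := by
    unfold gg
    rw [fs_Pv hn]
    unfold Pv
    ring
  have h2 : 2 * x i - fs x ≤ NN n x := (le_abs_self _).trans (gg_le_NN x i)
  have h3 : ∀ l, fs x - 2 * x l ≤ NN n x := fun l => by
    have := (neg_le_abs _).trans (gg_le_NN x l)
    unfold gg at this
    linarith
  have h4 : ∑ l ∈ Finset.univ.erase i, (fs x - 2 * x l) ≤ ∑ _l ∈ Finset.univ.erase i, NN n x :=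
    Finset.sum_le_sum fun l _ => h3 l
  have hcard : ((Finset.univ.erase i).card : ℝ) = n - 1 := by
    rw [Finset.card_erase_of_mem (Finset.mem_univ i), Finset.card_univ, Fintype.card_fin]
    push_cast [show 1 ≤ n by omega]
    ring
  rw [Finset.sum_sub_distrib, Finset.sum_const, Finset.sum_const, nsmul_eq_mul, nsmul_eq_mul,
    hcard, ← Finset.mul_sum] at h4
  have h5 : ∑ l ∈ Finset.univ.erase i, x l = fs x - x i := by
    unfold fs
    rw [← Finset.add_sum_erase _ _ (Finset.mem_univ i)]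
    ring
  rw [h5] at h4
  have hn1 : (0 : ℝ) ≤ n - 1 := by
    have : (1 : ℝ) ≤ n := by exact_mod_cast (by omega : 1 ≤ n)
    linarith
  have h6 := mul_le_mul_of_nonneg_left h2 hn1
  rw [h1]
  have h7 : n * (2 * x i - 2 * (fs x / n)) = 2 * n * x i - 2 * fs x := by field_simp
  have h8 : n * ((2 - 2 / n) * NN n x) = (2 * n - 2) * NN n x := by field_simp
  have h9 : n * (2 * x i - 2 * (fs x / n)) ≤ n * ((2 - 2 / n) * NN n x) := by
    rw [h7, h8]
    nlinarith
  exact le_of_mul_le_mul_left h9 hn0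

lemma Pv_neg (x : Fin n → ℝ) : Pv (-x) = -Pv x := by
  funext i
  simp only [Pv, fs, Pi.neg_apply, Finset.sum_neg_distrib]
  ring

lemma NN_neg (x : Fin n → ℝ) : NN n (-x) = NN n x := by
  have := NN_smul (n := n) (-1) x
  simpa using this

/-- The projection `Pv` has norm at most `2 - 2 / n`. -/
lemma NN_Pv_le (hn : 4 ≤ n) (x : Fin n → ℝ) : NN n (Pv x) ≤ (2 - 2 / n) * NN n x := by
  have hn0 : (0 : ℝ) < n := by exact_mod_cast (by omega : 0 < n)
  have hn4 : (4 : ℝ) ≤ n := by exact_mod_cast hn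
  have hκ : 0 ≤ (2 : ℝ) - 2 / n := by
    have : 2 / (n : ℝ) ≤ 1 := by rw [div_le_one hn0]; linarith
    linarith
  refine max_le ?_ ?_
  · rw [pi_norm_le_iff_of_nonneg (mul_nonneg hκ (NN_nonneg x))]
    intro i
    rw [Real.norm_eq_abs, abs_le]
    constructor
    · have := gg_Pv_le hn (-x) i
      rw [NN_neg, Pv_neg] at this
      have e : gg (-Pv x) i = -gg (Pv x) i := by
        simp only [gg, fs, Pi.neg_apply, Finset.sum_neg_distrib]
        ring
      rw [e] at this
      linarith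
    · exact gg_Pv_le hn x i
  · exact (NM_Pv_le hn x).trans (mul_le_mul_of_nonneg_left (le_max_right _ _) hκ)

/-- Every projection onto `ker f` has norm at least `2 - 2 / n`. -/
lemma lower (hn : 4 ≤ n) {P : (Fin n → ℝ) →ₗ[ℝ] (Fin n → ℝ)} (hP : ∀ x, fs (P x) = 0)
    (hP' : ∀ x, fs x = 0 → P x = x) {c : ℝ} (hc : ∀ x, NN n (P x) ≤ c * NN n x) :
    2 - 2 / n ≤ c := by
  have hn0 : (0 : ℝ) < n := by exact_mod_cast (by omega : 0 < n)
  have hfs : ∀ i : Fin n, fs (Pi.single i (1 : ℝ)) = 1 := fun i => by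
    unfold fs
    rw [Finset.sum_eq_single i]
    · simp
    · intro j _ hj
      simp [hj]
    · simp
  -- the direction of the projection
  obtain ⟨i0⟩ : Nonempty (Fin n) := ⟨⟨0, by omega⟩⟩
  set v : Fin n → ℝ := Pi.single i0 (1 : ℝ) - P (Pi.single i0 (1 : ℝ)) with hv
  have hfv : fs v = 1 := by
    have : fs v = fs (Pi.single i0 (1 : ℝ)) - fs (P (Pi.single i0 (1 : ℝ))) := by
      rw [hv]
      unfold fs
      rw [← Finset.sum_sub_distrib]
      rfl
    rw [this, hfs, hP, sub_zero]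
  have hPe : ∀ i, P (Pi.single i (1 : ℝ)) = Pi.single i (1 : ℝ) - v := by
    intro i
    have h1 : fs (Pi.single i (1 : ℝ) - Pi.single i0 (1 : ℝ)) = 0 := by
      have : fs (Pi.single i (1 : ℝ) - Pi.single i0 (1 : ℝ)) =
          fs (Pi.single i (1 : ℝ)) - fs (Pi.single i0 (1 : ℝ)) := by
        unfold fs
        rw [← Finset.sum_sub_distrib]
        rfl
      rw [this, hfs, hfs, sub_self]
    have h2 := hP' _ h1
    rw [map_sub] at h2
    rw [hv]
    have h3 : P (Pi.single i (1 : ℝ)) = Pi.single i (1 : ℝ) - Pi.single i0 (1 : ℝ) +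
        P (Pi.single i0 (1 : ℝ)) := by rw [← h2]; abel
    rw [h3]; abel
  have hi : ∀ i, 2 - 2 * v i ≤ c := by
    intro i
    have h1 := hc (Pi.single i (1 : ℝ))
    have hc0 : 0 ≤ c := by
      by_contra hneg
      push Not at hneg
      have h2 : 0 < NN n (Pi.single i (1 : ℝ)) := by
        refine lt_of_le_of_ne (NN_nonneg _) fun h => ?_
        have := NN_eq_zero hn h.symm
        have h3 := congrFun this i
        simp at h3
      have h3 := NN_nonneg (n := n) (P (Pi.single i (1 : ℝ)))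
      nlinarith
    have h2 : NN n (P (Pi.single i (1 : ℝ))) ≤ c :=
      h1.trans (by nlinarith [NN_single_le hn i, NN_nonneg (n := n) (Pi.single i (1 : ℝ))])
    have h3 := (le_abs_self _).trans ((gg_le_NN (P (Pi.single i (1 : ℝ))) i).trans h2)
    rw [hPe] at h3
    have h4 : gg (Pi.single i (1 : ℝ) - v) i = 2 - 2 * v i := by
      have e1 : fs (Pi.single i (1 : ℝ) - v) = 0 := by
        have : fs (Pi.single i (1 : ℝ) - v) = fs (Pi.single i (1 : ℝ)) - fs v := by
          unfold fs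
          rw [← Finset.sum_sub_distrib]
          rfl
        rw [this, hfs, hfv, sub_self]
      unfold gg
      rw [e1]
      simp
      ring
    rwa [h4] at h3
  have hsum : ∑ i, (2 - 2 * v i) ≤ ∑ _i : Fin n, c := Finset.sum_le_sum fun i _ => hi i
  rw [Finset.sum_sub_distrib, Finset.sum_const, Finset.sum_const, Finset.card_univ,
    Fintype.card_fin, nsmul_eq_mul, nsmul_eq_mul, ← Finset.mul_sum] at hsum
  have h5 : ∑ i, v i = 1 := hfv
  rw [h5] at hsum
  have h6 : n * (2 - 2 / (n : ℝ)) ≤ n * c := by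
    have : n * (2 - 2 / (n : ℝ)) = 2 * n - 2 := by field_simp
    rw [this]; linarith
  exact le_of_mul_le_mul_left h6 hn0

end Q92.KX
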