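import Pool.Agent.Q92.KX.CaseII

/-!
End of Case II.
-/

open Set Filter Topology

namespace Q92.KX

variable {n : ℕ} {Z : Submodule ℝ (Fin n → ℝ)} {P : (Fin n → ℝ) →ₗ[ℝ] (Fin n → ℝ)}

lemma gg_surj (hn : 4 ≤ n) (c : Fin n → ℝ) : ∃ x : Fin n → ℝ, gg x = c := by
  have hn4 : (4 : ℝ) ≤ n := by exact_mod_cast hn
  have h2 : (2 : ℝ) - n ≠ 0 := by linarith
  set F : ℝ := (∑ i, c i) / (2 - n) with hF
  have hsum : fs (fun j => (c j + F) / 2) = F := by
    unfold fs
    rw [← Finset.sum_div, Finset.sum_add_distrib, Finset.sum_const, Finset.card_univ,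
      Fintype.card_fin, nsmul_eq_mul]
    have : ∑ i, c i = F * (2 - n) := by rw [hF]; field_simp
    rw [this]
    ring
  refine ⟨fun j => (c j + F) / 2, ?_⟩
  funext i
  unfold gg
  rw [hsum]
  ring

lemma gg_inj (hn : 4 ≤ n) {x y : Fin n → ℝ} (h : gg x = gg y) : x = y := by
  have hn4 : (4 : ℝ) ≤ n := by exact_mod_cast hn
  have h1 : ∀ i, 2 * x i - fs x = 2 * y i - fs y := fun i => congrFun h i
  have h2 : ∑ i, (2 * x i - fs x) = ∑ i, (2 * y i - fs y) :=
    Finset.sum_congr rfl fun i _ => h1 i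
  rw [Finset.sum_sub_distrib, Finset.sum_sub_distrib, ← Finset.mul_sum, ← Finset.mul_sum,
    Finset.sum_const, Finset.sum_const, Finset.card_univ, Fintype.card_fin, nsmul_eq_mul,
    nsmul_eq_mul] at h2
  have e1 : ∑ i, x i = fs x := rfl
  have e2 : ∑ i, y i = fs y := rfl
  rw [e1, e2] at h2
  have h3 : (n - 2 : ℝ) * (fs x - fs y) = 0 := by linarith
  have h4 := (mul_eq_zero.1 h3).resolve_left (by linarith)
  funext i
  have := h1 i
  linarith

/-- Comparison of a coordinate with the `ℓ₁` norm. -/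
lemma coord_le (w : Fin n → ℝ) {i m : Fin n} (h : m ≠ i) : gg w i + 2 * w m ≤ l1 w := by
  unfold gg fs l1
  rw [← Finset.add_sum_erase _ _ (Finset.mem_univ i),
    ← Finset.add_sum_erase _ _ (Finset.mem_erase.2 ⟨h, Finset.mem_univ m⟩),
    ← Finset.add_sum_erase _ (fun i => |w i|) (Finset.mem_univ i),
    ← Finset.add_sum_erase _ (fun i => |w i|) (Finset.mem_erase.2 ⟨h, Finset.mem_univ m⟩)]
  have h1 : -∑ j ∈ (Finset.univ.erase i).erase m, w j ≤
      ∑ j ∈ (Finset.univ.erase i).erase m, |w j| := by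
    rw [← Finset.sum_neg_distrib]
    exact Finset.sum_le_sum fun j _ => neg_le_abs _
  have h2 := le_abs_self (w i)
  have h3 := le_abs_self (w m)
  linarith

lemma coord_ge (w : Fin n → ℝ) {i m : Fin n} (h : m ≠ i) : -gg w i - 2 * w m ≤ l1 w := by
  have := coord_le (-w) h
  have e1 : gg (-w) i = -gg w i := by
    have := congrFun (gg_smul (-1) w) i
    simpa using this
  have e2 : l1 (-w) = l1 w := by
    unfold l1; simp
  rw [e1, e2] at this
  simp only [Pi.neg_apply] at this
  linarith

/-- The one-line contradiction. -/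
lemma final_ineq (hn : 4 ≤ n) {I : Finset (Fin n)} (hI3 : 3 ≤ I.card) (hIn : I.card < n)
    (hI : Norming Z I) (hall : ∀ z ∈ Z, NM n z ≤ ‖gg z‖)
    {u : Fin n → (Fin n → ℝ)} (hu : ∀ i ∈ I, u i ∈ Z)
    (hui : ∀ i ∈ I, ∀ l ∈ I, gg (u i) l = if l = i then 1 else 0) : False := by
  classical
  have hn4 : (4 : ℝ) ≤ n := by exact_mod_cast hn
  set w : Fin n → (Fin n → ℝ) := fun i => (2 : ℝ) • u i - ∑ l ∈ I, u l with hw
  have hsumg : ∀ (T : Finset (Fin n)) (φ : Fin n → (Fin n → ℝ)) (m : Fin n),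
      gg (∑ l ∈ T, φ l) m = ∑ l ∈ T, gg (φ l) m := by
    intro T φ m
    rw [← gl_apply, map_sum]
    exact Finset.sum_congr rfl fun l _ => gl_apply _ _
  have hsub : ∀ (x y : Fin n → ℝ) (m : Fin n), gg ((2 : ℝ) • x - y) m = 2 * gg x m - gg y m := by
    intro x y m
    rw [← gl_apply, map_sub, map_smul, gl_apply, gl_apply]
    rfl
  have hwZ : ∀ i ∈ I, w i ∈ Z := fun i hi =>
    Z.sub_mem (Z.smul_mem _ (hu i hi)) (Z.sum_mem fun l hl => hu l hl)
  have hwg : ∀ i ∈ I, ∀ m ∈ I, gg (w i) m = if m = i then 1 else -1 := by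
    intro i hi m hm
    simp only [hw]
    rw [hsub, hsumg, hui i hi m hm]
    have : ∑ l ∈ I, gg (u l) m = 1 := by
      rw [Finset.sum_eq_single m]
      · rw [hui m hm m hm, if_pos rfl]
      · intro l hl hne
        rw [hui l hl m hm, if_neg (Ne.symm hne)]
      · intro h; exact absurd hm h
    rw [this]
    split_ifs <;> norm_num
  -- norm bounds
  have hgw : ∀ i ∈ I, ‖gg (w i)‖ ≤ 1 := by
    intro i hi
    rw [pi_norm_le_iff_of_nonneg zero_le_one]
    intro j
    obtain ⟨m, hm, hle⟩ := hI _ (hwZ i hi) j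
    refine hle.trans ?_
    rw [hwg i hi m hm]
    split_ifs <;> simp
  set s : ℝ := 2 * n / (2 * n - 1) with hs
  have hs1 : s * (1 - 2 * ep n) = 1 := by
    rw [hs]; unfold ep
    have h1 : (2 * n - 1 : ℝ) ≠ 0 := by linarith
    have h2 : (n : ℝ) ≠ 0 := by linarith
    field_simp
    ring
  have hs0 : 0 < s := by
    rw [hs]
    exact div_pos (by linarith) (by linarith)
  have hl1 : ∀ i ∈ I, l1 (w i) ≤ s := by
    intro i hi
    have h1 := (le_NM hn (w i)).trans ((hall _ (hwZ i hi)).trans (hgw i hi))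
    have h2 := mul_le_mul_of_nonneg_left h1 hs0.le
    calc l1 (w i) = (s * (1 - 2 * ep n)) * l1 (w i) := by rw [hs1, one_mul]
      _ = s * ((1 - 2 * ep n) * l1 (w i)) := by ring
      _ ≤ s * 1 := h2
      _ = s := mul_one _
  -- an index outside
  have hex : ∃ m0, m0 ∉ I := by
    by_contra hc
    push Not at hc
    have : I = Finset.univ := Finset.eq_univ_iff_forall.2 hc
    rw [this, Finset.card_univ, Fintype.card_fin] at hIn
    exact lt_irrefl _ hIn
  obtain ⟨m0, hm0⟩ := hex
  have hbd : ∀ i ∈ I, gg (w i) m0 ≤ -1 + 2 * (s - 1) := by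
    intro i hi
    have h1 : 1 < (I.erase i).card := by
      rw [Finset.card_erase_of_mem hi]; omega
    obtain ⟨l, hl, l', hl', hne⟩ := Finset.one_lt_card.1 h1
    rw [Finset.mem_erase] at hl hl'
    have h2 := coord_le (w i) (i := i) (m := m0) (fun h => hm0 (h ▸ hi))
    have h3 := coord_ge (w i) (i := l') (m := l) hne
    have h4 := hl1 i hi
    rw [hwg i hi i hi, if_pos rfl] at h2
    rw [hwg i hi l' hl'.2, if_neg hl'.1] at h3
    have h5 := hwg i hi l hl.2
    rw [if_neg hl.1] at h5
    unfold gg at h5 ⊢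
    linarith
  set y := ∑ i ∈ I, w i with hy
  have hyZ : y ∈ Z := Z.sum_mem hwZ
  have hyg : ∀ m ∈ I, gg y m = 2 - I.card := by
    intro m hm
    rw [hy, hsumg]
    have : ∀ i ∈ I, gg (w i) m = (if i = m then 2 else 0) - 1 := by
      intro i hi
      rw [hwg i hi m hm]
      by_cases h : m = i
      · rw [if_pos h, if_pos h.symm]; norm_num
      · rw [if_neg h, if_neg (Ne.symm h)]; norm_num
    rw [Finset.sum_congr rfl this, Finset.sum_sub_distrib, Finset.sum_ite_eq', if_pos hm,
      Finset.sum_const, nsmul_eq_mul, mul_one]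
  have hym0 : gg y m0 ≤ I.card * (-1 + 2 * (s - 1)) := by
    rw [hy, hsumg]
    refine (Finset.sum_le_sum hbd).trans ?_
    rw [Finset.sum_const, nsmul_eq_mul]
  obtain ⟨m, hm, hle⟩ := hI y hyZ m0
  have hk3 : (3 : ℝ) ≤ I.card := by exact_mod_cast hI3
  have hkn : (I.card : ℝ) ≤ n - 1 := by
    have : (I.card : ℝ) + 1 ≤ n := by exact_mod_cast hIn
    linarith
  rw [hyg m hm, abs_sub_comm (2 : ℝ), abs_of_nonneg (show (0 : ℝ) ≤ I.card - 2 by linarith)] at hle
  have h6 := (neg_le_abs _).trans hle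
  have h7 : 1 ≤ I.card * (s - 1) := by linarith
  have h8 : s - 1 = 1 / (2 * n - 1) := by
    rw [hs]
    have : (2 * n - 1 : ℝ) ≠ 0 := by linarith
    field_simp
    ring
  rw [h8, mul_one_div, le_div_iff₀ (by linarith)] at h7
  linarith

/-- Case II is impossible. -/
lemma caseII (hn : 4 ≤ n) (hP : CP Z P) (h3 : 3 ≤ Module.finrank ℝ Z)
    (hlt : Module.finrank ℝ Z < n)
    (hdim : ∃ z1 ∈ Z, ∃ z2 ∈ Z, LinearIndependent ℝ ![z1, z2])
    (hall : ∀ z ∈ Z, NM n z ≤ ‖gg z‖) : False := by
  classical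
  obtain ⟨I, hI, hmin⟩ := exists_minimal_norming Z
  have hstrict : ∀ i ∈ I, ∃ z ∈ Z, NM n z < gg z i ∧ ∀ j, |gg z j| < gg z i ∨ grel Z j i := by
    intro i hi
    obtain ⟨z0, hz0, h0⟩ := hmin i hi
    exact exists_strict hn hall hdim hI hz0 h0
  have hunrel : ∀ i ∈ I, ∀ l ∈ I, l ≠ i → ¬ grel Z l i := by
    intro i hi l hl hne hrel
    obtain ⟨z0, hz0, h0⟩ := hmin i hi
    have h1 := h0 l hl hne
    rcases hrel with h | h
    · rw [h z0 hz0] at h1; exact lt_irrefl _ h1
    · rw [h z0 hz0, abs_neg] at h1; exact lt_irrefl _ h1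
  -- dual vectors
  have hdual : ∀ i ∈ I, ∃ u ∈ Z, ∀ l ∈ I, gg u l = if l = i then 1 else 0 := by
    intro i hi
    obtain ⟨x, hx⟩ := gg_surj hn (fun j => if (∀ w ∈ Z, gg w j = gg w i) then (1 : ℝ) else
      if (∀ w ∈ Z, gg w j = -gg w i) then -1 else 0)
    have hxj : ∀ j, gg x j = if (∀ w ∈ Z, gg w j = gg w i) then (1 : ℝ) else
      if (∀ w ∈ Z, gg w j = -gg w i) then -1 else 0 := fun j => congrFun hx j
    have hxun : ∀ j, ¬ grel Z j i → gg x j = 0 := by
      intro j hj
      unfold grel at hj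
      push Not at hj
      rw [hxj, if_neg, if_neg]
      · intro h; obtain ⟨w, hw, hne⟩ := hj.2; exact hne (h w hw)
      · intro h; obtain ⟨w, hw, hne⟩ := hj.1; exact hne (h w hw)
    have hxi : gg x i = 1 := by rw [hxj, if_pos fun _ _ => rfl]
    refine ⟨P x, hP.mem x, fun l hl => ?_⟩
    obtain ⟨z, hzZ, hzN, hz⟩ := hstrict l hl
    have hfun : gg (P x) l = gg x l := by
      refine strict_fun hP hzZ hzN fun j => ?_
      rcases hz j with h | h
      · exact Or.inl h
      right
      by_cases hli : l = i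
      · subst hli
        by_cases h1 : ∀ w ∈ Z, gg w j = gg w l
        · exact ⟨1, by simp, by rw [h1 z hzZ, one_mul], by rw [hxj j, if_pos h1, hxi, one_mul]⟩
        · have h2 : ∀ w ∈ Z, gg w j = -gg w l := h.resolve_left h1
          exact ⟨-1, by simp, by rw [h2 z hzZ]; ring, by rw [hxj j, if_neg h1, if_pos h2, hxi]; ring⟩
      · have hl0 : gg x l = 0 := hxun l (hunrel i hi l hl hli)
        have hj0 : gg x j = 0 := by
          refine hxun j fun hji => ?_
          refine hunrel i hi l hl hli ?_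
          rcases h with h | h <;> rcases hji with h' | h'
          · left; intro w hw; rw [← h w hw, h' w hw]
          · right; intro w hw; rw [← h w hw, h' w hw]
          · right; intro w hw
            have e1 := h w hw
            have e2 := h' w hw
            linarith
          · left; intro w hw
            have e1 := h w hw
            have e2 := h' w hw
            linarith
        rcases h with h | h
        · exact ⟨1, by simp, by rw [h z hzZ, one_mul], by rw [hj0, hl0]; ring⟩
        · exact ⟨-1, by simp, by rw [h z hzZ]; ring, by rw [hj0, hl0]; ring⟩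
    rw [hfun]
    by_cases hli : l = i
    · rw [if_pos hli, hli, hxi]
    · rw [if_neg hli, hxun l (hunrel i hi l hl hli)]
  choose! u huZ hug using hdual
  -- cardinalities
  have hk3 : 3 ≤ I.card := by
    let ψ : Z →ₗ[ℝ] (I → ℝ) := LinearMap.pi fun i => (gl (i : Fin n)).comp Z.subtype
    have hinj : Function.Injective ψ := by
      rw [← LinearMap.ker_eq_bot, LinearMap.ker_eq_bot']
      intro z hz
      have h1 : ∀ i ∈ I, gg (z : Fin n → ℝ) i = 0 := by
        intro i hi
        have := congrFun hz ⟨i, hi⟩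
        rw [← gl_apply]
        exact this
      have h2 : gg (z : Fin n → ℝ) = gg 0 := by
        funext j
        obtain ⟨i, hi, hle⟩ := hI z z.2 j
        rw [h1 i hi, abs_zero] at hle
        have h3 : gg (0 : Fin n → ℝ) j = 0 := by simp [gg, fs]
        rw [h3]
        exact abs_nonpos_iff.1 hle
      exact Subtype.ext (gg_inj hn h2)
    have := LinearMap.finrank_le_finrank_of_injective hinj
    rw [Module.finrank_fintype_fun_eq_card, Fintype.card_coe] at this
    omega
  have hkn : I.card < n := by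
    by_contra hc
    push Not at hc
    have hle : I.card ≤ n := by
      have := Finset.card_le_univ I
      rwa [Fintype.card_fin] at this
    have huniv : I = Finset.univ := by
      rw [← Finset.card_eq_iff_eq_univ, Fintype.card_fin]; omega
    have htop : Z = ⊤ := by
      rw [eq_top_iff]
      intro x _
      have h1 : x = ∑ i ∈ I, gg x i • u i := by
        apply gg_inj hn
        funext j
        rw [← gl_apply j (∑ i ∈ I, gg x i • u i), map_sum]
        have : ∀ i ∈ I, gl j (gg x i • u i) = if i = j then gg x i else 0 := by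
          intro i hi
          rw [map_smul, gl_apply, hug i hi j (by rw [huniv]; exact Finset.mem_univ j), smul_eq_mul]
          by_cases h : j = i
          · rw [if_pos h, if_pos h.symm, mul_one]
          · rw [if_neg h, if_neg (Ne.symm h), mul_zero]
        rw [Finset.sum_congr rfl this, Finset.sum_ite_eq', if_pos (by rw [huniv]; exact Finset.mem_univ j)]
      rw [h1]
      exact Z.sum_mem fun i hi => Z.smul_mem _ (huZ i hi)
    rw [htop, finrank_top, Module.finrank_fintype_fun_eq_card, Fintype.card_fin] at hlt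
    exact lt_irrefl _ hlt
  exact final_ineq hn hk3 hkn hI hall huZ hug

/-- No contractive projection onto a subspace of dimension between `3` and `n - 1`. -/
theorem no_contractive (hn : 4 ≤ n) (h3 : 3 ≤ Module.finrank ℝ Z)
    (hlt : Module.finrank ℝ Z < n) : ¬ CP Z P := by
  intro hP
  have hdim : ∃ z1 ∈ Z, ∃ z2 ∈ Z, LinearIndependent ℝ ![z1, z2] := by
    obtain ⟨f, hf⟩ := exists_linearIndependent_of_le_finrank (R := ℝ) (M := Z) (n := 2) (by omega)
    refine ⟨f 0, (f 0).2, f 1, (f 1).2, ?_⟩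
    have h := hf.map' Z.subtype (by simp)
    have e : Z.subtype ∘ f = ![(f 0 : Fin n → ℝ), (f 1 : Fin n → ℝ)] := by
      funext i
      fin_cases i <;> rfl
    rwa [e] at h
  by_cases hall : ∀ z ∈ Z, NM n z ≤ ‖gg z‖
  · exact caseII hn hP h3 hlt hdim hall
  · push Not at hall
    obtain ⟨z0, hz0, hact⟩ := hall
    exact caseI hn hP h3 hlt hdim hz0 hact

end Q92.KX
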