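import Pool.Agent.Q92.KX.Norm

/-!
Local analysis at points where the curved part of the norm is active.
-/

open Set Filter Topology

namespace Q92.KX

variable {n : ℕ}

/-- The polarised derivative of `F`. -/
noncomputable def DD (n : ℕ) (z v : Fin n → ℝ) : ℝ :=
  ∑ i, v i * z i ^ (2 * n + 1) + qf n z ^ n * bf n z v

/-- The signed sum. -/
noncomputable def sg (b v : Fin n → ℝ) : ℝ := ∑ i, (SignType.sign (b i) : ℝ) * v i

lemma DD_sub (z v w : Fin n → ℝ) : DD n z (v - w) = DD n z v - DD n z w := by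
  unfold DD bf
  have h1 : ∑ i, (v - w) i * z i ^ (2 * n + 1) =
      ∑ i, v i * z i ^ (2 * n + 1) - ∑ i, w i * z i ^ (2 * n + 1) := by
    rw [← Finset.sum_sub_distrib]
    exact Finset.sum_congr rfl fun i _ => by simp only [Pi.sub_apply]; ring
  have h2 : ∑ i, dw n i * z i * (v - w) i = ∑ i, dw n i * z i * v i - ∑ i, dw n i * z i * w i := by
    rw [← Finset.sum_sub_distrib]
    exact Finset.sum_congr rfl fun i _ => by simp only [Pi.sub_apply]; ring
  rw [h1, h2]
  ring

lemma sg_sub (b v w : Fin n → ℝ) : sg b (v - w) = sg b v - sg b w := by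
  unfold sg
  rw [← Finset.sum_sub_distrib]
  exact Finset.sum_congr rfl fun i _ => by simp only [Pi.sub_apply]; ring

lemma FF_pos {x : Fin n → ℝ} (hx : x ≠ 0) : 0 < FF n x := by
  unfold FF
  obtain ⟨i, hi⟩ := Function.ne_iff.1 hx
  have h1 : 0 < ∑ i, x i ^ (2 * (n + 1)) := by
    refine Finset.sum_pos' (fun j _ => by rw [pow_mul]; positivity) ⟨i, Finset.mem_univ i, ?_⟩
    rw [pow_mul]
    have : 0 < x i ^ 2 := by
      have : x i ≠ 0 := hi
      positivity
    positivity
  have h2 : 0 ≤ qf n x ^ (n + 1) := pow_nonneg (qf_nonneg x) _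
  linarith

lemma deriv_l1 {z x : Fin n → ℝ} (h : ∀ i, z i ≠ 0 ∨ x i = 0) :
    HasDerivAt (fun t : ℝ => l1 (z + t • x)) (sg z x) 0 := by
  unfold l1 sg
  have : ∀ i ∈ Finset.univ, HasDerivAt (fun t : ℝ => |(z + t • x) i|)
      ((SignType.sign (z i) : ℝ) * x i) 0 := by
    intro i _
    simp only [Pi.add_apply, Pi.smul_apply, smul_eq_mul]
    rcases h i with h1 | h1
    · have h2 : HasDerivAt (fun t : ℝ => z i + t * x i) (x i) 0 := by
        simpa using ((hasDerivAt_id (0 : ℝ)).mul_const (x i)).const_add (z i)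
      have h3 : HasDerivAt (fun u : ℝ => |u|) (SignType.sign (z i) : ℝ) (z i + 0 * x i) := by
        rw [zero_mul, add_zero]
        exact hasDerivAt_abs h1
      exact HasDerivAt.comp (0 : ℝ) h3 h2
    · simp only [h1, mul_zero, add_zero]
      exact hasDerivAt_const _ _
  have h2 := HasDerivAt.fun_sum this
  exact h2

lemma deriv_FF (z x : Fin n → ℝ) :
    HasDerivAt (fun t : ℝ => FF n (z + t • x)) ((2 * (n + 1) : ℝ) * DD n z x) 0 := by
  have h1 : ∀ i ∈ Finset.univ, HasDerivAt (fun t : ℝ => (z + t • x) i ^ (2 * (n + 1)))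
      ((2 * (n + 1) : ℝ) * (x i * z i ^ (2 * n + 1))) 0 := by
    intro i _
    simp only [Pi.add_apply, Pi.smul_apply, smul_eq_mul]
    have h2 : HasDerivAt (fun t : ℝ => z i + t * x i) (x i) 0 := by
      simpa using ((hasDerivAt_id (0 : ℝ)).mul_const (x i)).const_add (z i)
    refine (h2.fun_pow (2 * (n + 1))).congr_deriv ?_
    have : 2 * (n + 1) - 1 = 2 * n + 1 := by omega
    rw [this]
    push_cast
    ring
  have h2 := HasDerivAt.fun_sum h1
  have h3 : HasDerivAt (fun t : ℝ => qf n (z + t • x)) (2 * bf n z x) 0 := by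
    have e : (fun t : ℝ => qf n (z + t • x)) =
        fun t => qf n z + t * (2 * bf n z x) + t ^ 2 * qf n x := by
      funext t
      rw [qf_add, qf_smul]
      have : bf n z (t • x) = t * bf n z x := by
        unfold bf
        rw [Finset.mul_sum]
        exact Finset.sum_congr rfl fun i _ => by simp only [Pi.smul_apply, smul_eq_mul]; ring
      rw [this]
      ring
    rw [e]
    have h4 := (((hasDerivAt_id (0 : ℝ)).mul_const (2 * bf n z x)).const_add (qf n z)).fun_add
      (((hasDerivAt_id (0 : ℝ)).fun_pow 2).mul_const (qf n x))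
    refine h4.congr_deriv ?_
    simp
  have h4 := h3.fun_pow (n + 1)
  have h5 := h2.fun_add h4
  unfold FF DD
  refine h5.congr_deriv ?_
  have e0 : z + (0 : ℝ) • x = z := by simp
  rw [e0, ← Finset.mul_sum]
  push_cast
  ring

lemma deriv_EE {z : Fin n → ℝ} (hz : z ≠ 0) (x : Fin n → ℝ) :
    HasDerivAt (fun t : ℝ => EE n (z + t • x))
      (FF n z ^ (1 / (2 * (n + 1) : ℝ) - 1) * DD n z x) 0 := by
  have h1 := (deriv_FF z x).rpow_const (p := 1 / (2 * (n + 1) : ℝ)) (Or.inl (by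
    have e0 : z + (0 : ℝ) • x = z := by simp
    rw [e0]
    exact (FF_pos hz).ne'))
  have e0 : z + (0 : ℝ) • x = z := by simp
  rw [e0] at h1
  unfold EE
  refine h1.congr_deriv ?_
  field_simp

lemma deriv_NM {z x : Fin n → ℝ} (hz : z ≠ 0) (h : ∀ i, z i ≠ 0 ∨ x i = 0) :
    HasDerivAt (fun t : ℝ => NM n (z + t • x)) ((1 - 2 * ep n) * sg z x +
      ep n * (FF n z ^ (1 / (2 * (n + 1) : ℝ) - 1) * DD n z x)) 0 := by
  unfold NM
  exact ((deriv_l1 h).const_mul _).add ((deriv_EE hz x).const_mul _)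

lemma cont_gg (z x : Fin n → ℝ) : Continuous (fun t : ℝ => gg (z + t • x)) := by
  unfold gg fs
  fun_prop

/-- A contractive projection. -/
structure CP (Z : Submodule ℝ (Fin n → ℝ)) (P : (Fin n → ℝ) →ₗ[ℝ] (Fin n → ℝ)) : Prop where
  mem : ∀ x, P x ∈ Z
  id : ∀ z ∈ Z, P z = z
  le : ∀ x, NN n (P x) ≤ NN n x

variable {Z : Submodule ℝ (Fin n → ℝ)} {P : (Fin n → ℝ) →ₗ[ℝ] (Fin n → ℝ)}

/-- The stationarity equation. -/
lemma stationary (hP : CP Z P) {z x : Fin n → ℝ} (hz : z ∈ Z) (hz0 : z ≠ 0)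
    (hact : ‖gg z‖ < NM n z) (hx : ∀ i, z i ≠ 0 ∨ x i = 0) (hPx : ∀ i, z i ≠ 0 ∨ P x i = 0) :
    (1 - 2 * ep n) * sg z (x - P x) +
      ep n * (FF n z ^ (1 / (2 * (n + 1) : ℝ) - 1) * DD n z (x - P x)) = 0 := by
  have h1 := (deriv_NM hz0 hx).sub (deriv_NM hz0 hPx)
  have hmin : IsLocalMin ((fun t : ℝ => NM n (z + t • x)) - fun t : ℝ => NM n (z + t • P x)) 0 := by
    have hc1 : ContinuousAt (fun t : ℝ => NM n (z + t • x)) 0 := (deriv_NM hz0 hx).continuousAt
    have hc2 : ContinuousAt (fun t : ℝ => ‖gg (z + t • x)‖) 0 :=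
      (cont_gg z x).norm.continuousAt
    have hlt : ‖gg (z + (0 : ℝ) • x)‖ < NM n (z + (0 : ℝ) • x) := by simpa using hact
    have hev := hc2.eventually_lt hc1 hlt
    filter_upwards [hev] with t ht
    simp only [Pi.sub_apply, zero_smul, add_zero, sub_self]
    have h2 : NM n (z + t • P x) ≤ NN n (z + t • x) := by
      have e : z + t • P x = P (z + t • x) := by rw [map_add, map_smul, hP.id z hz]
      rw [e]
      exact (le_max_right _ _).trans (hP.le _)
    have h3 : NN n (z + t • x) = NM n (z + t • x) := max_eq_right ht.le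
    rw [h3] at h2
    linarith
  have h2 := hmin.hasDerivAt_eq_zero h1
  rw [sg_sub, DD_sub]
  linarith

end Q92.KX
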