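import Mathlib

/-!
A norm on `Fin n → ℝ` having a hyperplane with maximal relative projection constant.
-/

open Set Filter Topology

namespace Q92.KX

variable {n : ℕ}

/-- Weights. -/
noncomputable def dw (n : ℕ) (i : Fin n) : ℝ := 1 / 2 + ((i : ℕ) : ℝ) / (2 * n)

lemma dw_ge (i : Fin n) : 1 / 2 ≤ dw n i := by
  unfold dw
  have : (0 : ℝ) ≤ ((i : ℕ) : ℝ) / (2 * n) := by positivity
  linarith

lemma dw_pos (i : Fin n) : 0 < dw n i := lt_of_lt_of_le (by norm_num) (dw_ge i)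

lemma dw_le (i : Fin n) : dw n i ≤ 1 := by
  unfold dw
  have hn : (0 : ℝ) < n := by
    have := i.2
    have : 0 < n := by omega
    exact_mod_cast this
  have h1 : ((i : ℕ) : ℝ) ≤ n := by exact_mod_cast i.2.le
  have : ((i : ℕ) : ℝ) / (2 * n) ≤ 1 / 2 := by
    rw [div_le_iff₀ (by positivity)]
    linarith
  linarith

lemma dw_inj : Function.Injective (dw n) := by
  intro i j h
  unfold dw at h
  have hn : (0 : ℝ) < n := by
    have := i.2
    have : 0 < n := by omega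
    exact_mod_cast this
  have h1 : ((i : ℕ) : ℝ) / (2 * n) = ((j : ℕ) : ℝ) / (2 * n) := by linarith
  rw [div_left_inj' (by positivity)] at h1
  exact Fin.ext (by exact_mod_cast h1)

/-- The quadratic form. -/
noncomputable def qf (n : ℕ) (x : Fin n → ℝ) : ℝ := ∑ i, dw n i * x i ^ 2

/-- Its bilinear form. -/
noncomputable def bf (n : ℕ) (x y : Fin n → ℝ) : ℝ := ∑ i, dw n i * x i * y i

/-- The `ℓ₁` norm. -/
noncomputable def l1 (x : Fin n → ℝ) : ℝ := ∑ i, |x i|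

/-- The form `F`. -/
noncomputable def FF (n : ℕ) (x : Fin n → ℝ) : ℝ :=
  ∑ i, x i ^ (2 * (n + 1)) + qf n x ^ (n + 1)

/-- The norm `E`. -/
noncomputable def EE (n : ℕ) (x : Fin n → ℝ) : ℝ := FF n x ^ (1 / (2 * (n + 1) : ℝ))

/-- The sum functional. -/
def fs (x : Fin n → ℝ) : ℝ := ∑ i, x i

/-- The functionals `g i`. -/
def gg (x : Fin n → ℝ) : Fin n → ℝ := fun i => 2 * x i - fs x

/-- The parameter. -/
noncomputable def ep (n : ℕ) : ℝ := 1 / (4 * n)

/-- The curved part of the norm. -/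
noncomputable def NM (n : ℕ) (x : Fin n → ℝ) : ℝ := (1 - 2 * ep n) * l1 x + ep n * EE n x

/-- The norm. -/
noncomputable def NN (n : ℕ) (x : Fin n → ℝ) : ℝ := max ‖gg x‖ (NM n x)

lemma l1_nonneg (x : Fin n → ℝ) : 0 ≤ l1 x := Finset.sum_nonneg fun _ _ => abs_nonneg _

lemma le_l1 (x : Fin n → ℝ) (i : Fin n) : |x i| ≤ l1 x :=
  Finset.single_le_sum (f := fun i => |x i|) (fun _ _ => abs_nonneg _) (Finset.mem_univ i)

lemma l1_add (x y : Fin n → ℝ) : l1 (x + y) ≤ l1 x + l1 y := by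
  unfold l1
  rw [← Finset.sum_add_distrib]
  exact Finset.sum_le_sum fun i _ => abs_add_le _ _

lemma l1_smul (c : ℝ) (x : Fin n → ℝ) : l1 (c • x) = |c| * l1 x := by
  unfold l1
  rw [Finset.mul_sum]
  exact Finset.sum_congr rfl fun i _ => by simp [abs_mul]

lemma l1_eq_zero {x : Fin n → ℝ} (h : l1 x = 0) : x = 0 := by
  funext i
  have := le_l1 x i
  rw [h] at this
  exact abs_nonpos_iff.1 this

lemma l1_pos {x : Fin n → ℝ} (h : x ≠ 0) : 0 < l1 x :=
  lt_of_le_of_ne (l1_nonneg x) fun h' => h (l1_eq_zero h'.symm)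

lemma qf_nonneg (x : Fin n → ℝ) : 0 ≤ qf n x :=
  Finset.sum_nonneg fun i _ => mul_nonneg (dw_pos i).le (sq_nonneg _)

lemma qf_smul (c : ℝ) (x : Fin n → ℝ) : qf n (c • x) = c ^ 2 * qf n x := by
  unfold qf
  rw [Finset.mul_sum]
  exact Finset.sum_congr rfl fun i _ => by simp only [Pi.smul_apply, smul_eq_mul]; ring

lemma qf_add (x y : Fin n → ℝ) : qf n (x + y) = qf n x + 2 * bf n x y + qf n y := by
  unfold qf bf
  rw [Finset.mul_sum, ← Finset.sum_add_distrib, ← Finset.sum_add_distrib]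
  exact Finset.sum_congr rfl fun i _ => by simp only [Pi.add_apply]; ring

lemma bf_sq_le (x y : Fin n → ℝ) : bf n x y ^ 2 ≤ qf n x * qf n y := by
  have h := Finset.sum_mul_sq_le_sq_mul_sq Finset.univ (fun i => √(dw n i) * x i)
    (fun i => √(dw n i) * y i)
  have e : ∀ i : Fin n, √(dw n i) ^ 2 = dw n i := fun i => Real.sq_sqrt (dw_pos i).le
  have e1 : ∑ i, (√(dw n i) * x i) * (√(dw n i) * y i) = bf n x y :=
    Finset.sum_congr rfl fun i _ => by
      have := e i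
      calc (√(dw n i) * x i) * (√(dw n i) * y i) = √(dw n i) ^ 2 * x i * y i := by ring
        _ = _ := by rw [this]
  have e2 : ∀ z : Fin n → ℝ, ∑ i, (√(dw n i) * z i) ^ 2 = qf n z := fun z =>
    Finset.sum_congr rfl fun i _ => by rw [mul_pow, e i]
  rw [e1, e2, e2] at h
  exact h

lemma sqrt_qf_add (x y : Fin n → ℝ) : √(qf n (x + y)) ≤ √(qf n x) + √(qf n y) := by
  rw [Real.sqrt_le_iff]
  refine ⟨by positivity, ?_⟩
  have h1 := Real.sq_sqrt (qf_nonneg x)
  have h2 := Real.sq_sqrt (qf_nonneg y)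
  have h3 : bf n x y ≤ √(qf n x) * √(qf n y) := by
    rw [← Real.sqrt_mul (qf_nonneg x)]
    exact Real.le_sqrt_of_sq_le (bf_sq_le x y)
  rw [qf_add]
  nlinarith

lemma FF_nonneg (x : Fin n → ℝ) : 0 ≤ FF n x := by
  unfold FF
  refine add_nonneg (Finset.sum_nonneg fun i _ => ?_) (pow_nonneg (qf_nonneg x) _)
  rw [pow_mul]; positivity

lemma EE_nonneg (x : Fin n → ℝ) : 0 ≤ EE n x := Real.rpow_nonneg (FF_nonneg x) _

/-- The vector of building blocks. -/
noncomputable def hv (n : ℕ) (x : Fin n → ℝ) : Option (Fin n) → ℝ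
  | none => √(qf n x)
  | some i => |x i|

lemma hv_nonneg (x : Fin n → ℝ) (o : Option (Fin n)) : 0 ≤ hv n x o := by
  cases o with
  | none => exact Real.sqrt_nonneg _
  | some i => exact abs_nonneg _

lemma hv_add (x y : Fin n → ℝ) (o : Option (Fin n)) : hv n (x + y) o ≤ hv n x o + hv n y o := by
  cases o with
  | none => exact sqrt_qf_add x y
  | some i => exact abs_add_le _ _

lemma FF_eq (x : Fin n → ℝ) : FF n x = ∑ o, hv n x o ^ (2 * (n + 1)) := by
  rw [Fintype.sum_option]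
  unfold FF hv
  rw [add_comm]
  congr 1
  · rw [pow_mul, Real.sq_sqrt (qf_nonneg x)]
  · exact Finset.sum_congr rfl fun i _ => by rw [pow_mul, pow_mul, sq_abs]

lemma EE_add (x y : Fin n → ℝ) : EE n (x + y) ≤ EE n x + EE n y := by
  unfold EE
  rw [FF_eq, FF_eq, FF_eq]
  have hp : (1 : ℝ) ≤ (2 * (n + 1) : ℝ) := by
    have : (0 : ℝ) ≤ n := Nat.cast_nonneg n
    linarith
  have key := Real.Lp_add_le_of_nonneg (s := Finset.univ) (f := hv n x) (g := hv n y) hp
    (fun i _ => hv_nonneg x i) (fun i _ => hv_nonneg y i)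
  have e : ∀ t : ℝ, t ^ (2 * (n + 1) : ℝ) = t ^ (2 * (n + 1)) := fun t => by
    rw [← Real.rpow_natCast]
    push_cast
    rfl
  simp only [e] at key
  refine le_trans ?_ key
  refine Real.rpow_le_rpow (Finset.sum_nonneg fun o _ => pow_nonneg (hv_nonneg _ _) _) ?_
    (by positivity)
  exact Finset.sum_le_sum fun o _ => pow_le_pow_left₀ (hv_nonneg _ _) (hv_add x y o) _

lemma FF_smul (c : ℝ) (x : Fin n → ℝ) : FF n (c • x) = c ^ (2 * (n + 1)) * FF n x := by
  unfold FF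
  have e : ∑ i, (c • x) i ^ (2 * (n + 1)) = c ^ (2 * (n + 1)) * ∑ i, x i ^ (2 * (n + 1)) := by
    rw [Finset.mul_sum]
    exact Finset.sum_congr rfl fun i _ => by simp only [Pi.smul_apply, smul_eq_mul]; ring
  rw [e, qf_smul, mul_pow, ← pow_mul]
  ring

lemma EE_smul (c : ℝ) (x : Fin n → ℝ) : EE n (c • x) = |c| * EE n x := by
  unfold EE
  rw [FF_smul, Real.mul_rpow (by rw [pow_mul]; positivity) (FF_nonneg x)]
  congr 1
  have h : c ^ (2 * (n + 1)) = |c| ^ (2 * (n + 1)) := by rw [pow_mul, pow_mul, sq_abs]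
  rw [h, ← Real.rpow_natCast, ← Real.rpow_mul (abs_nonneg c)]
  have : ((2 * (n + 1) : ℕ) : ℝ) * (1 / (2 * (n + 1) : ℝ)) = 1 := by
    push_cast
    field_simp
  rw [this, Real.rpow_one]

lemma sum_pow_le (x : Fin n → ℝ) (k : ℕ) : ∑ i, |x i| ^ (k + 1) ≤ l1 x ^ (k + 1) := by
  calc ∑ i, |x i| ^ (k + 1) ≤ ∑ i, |x i| * l1 x ^ k := Finset.sum_le_sum fun i _ => by
        rw [pow_succ']
        exact mul_le_mul_of_nonneg_left (pow_le_pow_left₀ (abs_nonneg _) (le_l1 x i) k)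
          (abs_nonneg _)
    _ = l1 x ^ (k + 1) := by
        rw [← Finset.sum_mul, pow_succ']
        rfl

lemma FF_le (x : Fin n → ℝ) : FF n x ≤ 2 * l1 x ^ (2 * (n + 1)) := by
  unfold FF
  have h1 : ∑ i, x i ^ (2 * (n + 1)) ≤ l1 x ^ (2 * (n + 1)) := by
    have := sum_pow_le x (2 * n + 1)
    refine le_trans (le_of_eq ?_) this
    exact Finset.sum_congr rfl fun i _ => by
      rw [show 2 * n + 1 + 1 = 2 * (n + 1) by ring, pow_mul, pow_mul, sq_abs]
  have h2 : qf n x ≤ l1 x ^ 2 := by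
    have h3 : ∑ i, x i ^ 2 ≤ l1 x ^ 2 := by
      have := sum_pow_le x 1
      simpa using this
    refine le_trans (Finset.sum_le_sum fun i _ => ?_) h3
    have := dw_le i
    nlinarith [sq_nonneg (x i)]
  have h4 : qf n x ^ (n + 1) ≤ l1 x ^ (2 * (n + 1)) := by
    rw [pow_mul]
    exact pow_le_pow_left₀ (qf_nonneg x) h2 _
  linarith

lemma EE_lt {x : Fin n → ℝ} (hx : x ≠ 0) : EE n x < 2 * l1 x := by
  have hl := l1_pos hx
  have h1 : FF n x < (2 * l1 x) ^ (2 * (n + 1)) := by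
    refine (FF_le x).trans_lt ?_
    rw [mul_pow]
    refine mul_lt_mul_of_pos_right ?_ (by positivity)
    calc (2 : ℝ) < 2 ^ 2 := by norm_num
      _ ≤ 2 ^ (2 * (n + 1)) := pow_le_pow_right₀ (by norm_num) (by omega)
  have h2 : EE n x < ((2 * l1 x) ^ (2 * (n + 1))) ^ (1 / (2 * (n + 1) : ℝ)) :=
    Real.rpow_lt_rpow (FF_nonneg x) h1 (by positivity)
  refine h2.trans_eq ?_
  rw [← Real.rpow_natCast, ← Real.rpow_mul (by positivity)]
  have : ((2 * (n + 1) : ℕ) : ℝ) * (1 / (2 * (n + 1) : ℝ)) = 1 := by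
    push_cast
    field_simp
  rw [this, Real.rpow_one]

lemma ep_pos (hn : 4 ≤ n) : 0 < ep n := by
  have : (0 : ℝ) < n := by exact_mod_cast (by omega : 0 < n)
  unfold ep; positivity

lemma ep_lt (hn : 4 ≤ n) : ep n ≤ 1 / 16 := by
  have : (4 : ℝ) ≤ n := by exact_mod_cast hn
  unfold ep
  rw [div_le_div_iff₀ (by positivity) (by norm_num)]
  linarith

lemma NM_nonneg (hn : 4 ≤ n) (x : Fin n → ℝ) : 0 ≤ NM n x := by
  have h1 := ep_pos hn
  have h2 := ep_lt hn
  unfold NM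
  exact add_nonneg (mul_nonneg (by linarith) (l1_nonneg x)) (mul_nonneg h1.le (EE_nonneg x))

lemma NM_add (hn : 4 ≤ n) (x y : Fin n → ℝ) : NM n (x + y) ≤ NM n x + NM n y := by
  have h1 := ep_pos hn
  have h2 := ep_lt hn
  unfold NM
  have h3 := mul_le_mul_of_nonneg_left (l1_add x y) (show 0 ≤ 1 - 2 * ep n by linarith)
  have h4 := mul_le_mul_of_nonneg_left (EE_add x y) h1.le
  linarith

lemma NM_smul (c : ℝ) (x : Fin n → ℝ) : NM n (c • x) = |c| * NM n x := by
  unfold NM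
  rw [l1_smul, EE_smul]
  ring

lemma le_NM (hn : 4 ≤ n) (x : Fin n → ℝ) : (1 - 2 * ep n) * l1 x ≤ NM n x := by
  have h1 := ep_pos hn
  unfold NM
  have := mul_nonneg h1.le (EE_nonneg x)
  linarith

lemma NM_lt (hn : 4 ≤ n) {x : Fin n → ℝ} (hx : x ≠ 0) : NM n x < l1 x := by
  have h1 := ep_pos hn
  have h2 := mul_lt_mul_of_pos_left (EE_lt hx) h1
  unfold NM
  linarith

lemma fs_add (x y : Fin n → ℝ) : fs (x + y) = fs x + fs y := by
  unfold fs; rw [← Finset.sum_add_distrib]; rfl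

lemma fs_smul (c : ℝ) (x : Fin n → ℝ) : fs (c • x) = c * fs x := by
  unfold fs; rw [Finset.mul_sum]; rfl

lemma gg_add (x y : Fin n → ℝ) : gg (x + y) = gg x + gg y := by
  funext i
  simp only [gg, fs_add, Pi.add_apply]
  ring

lemma gg_smul (c : ℝ) (x : Fin n → ℝ) : gg (c • x) = c • gg x := by
  funext i
  simp only [gg, fs_smul, Pi.smul_apply, smul_eq_mul]
  ring

lemma NN_nonneg (x : Fin n → ℝ) : 0 ≤ NN n x := (norm_nonneg _).trans (le_max_left _ _)

lemma NN_add (hn : 4 ≤ n) (x y : Fin n → ℝ) : NN n (x + y) ≤ NN n x + NN n y := by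
  unfold NN
  refine max_le ?_ ?_
  · rw [gg_add]
    exact (norm_add_le _ _).trans (add_le_add (le_max_left _ _) (le_max_left _ _))
  · exact (NM_add hn x y).trans (add_le_add (le_max_right _ _) (le_max_right _ _))

lemma NN_smul (c : ℝ) (x : Fin n → ℝ) : NN n (c • x) = |c| * NN n x := by
  unfold NN
  rw [gg_smul, NM_smul, norm_smul, Real.norm_eq_abs, mul_max_of_nonneg _ _ (abs_nonneg c)]

lemma NN_eq_zero (hn : 4 ≤ n) {x : Fin n → ℝ} (h : NN n x = 0) : x = 0 := by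
  have h1 : NM n x ≤ 0 := (le_max_right _ _).trans_eq h
  have h2 := le_NM hn x
  have h3 := ep_lt hn
  have h4 := l1_nonneg x
  apply l1_eq_zero
  nlinarith

lemma gg_abs_le (x : Fin n → ℝ) (i : Fin n) : |gg x i| ≤ l1 x := by
  unfold gg fs l1
  rw [← Finset.add_sum_erase _ _ (Finset.mem_univ i),
    ← Finset.add_sum_erase _ (fun i => |x i|) (Finset.mem_univ i)]
  have h1 : |∑ j ∈ Finset.univ.erase i, x j| ≤ ∑ j ∈ Finset.univ.erase i, |x j| :=
    Finset.abs_sum_le_sum_abs _ _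
  have h2 : 2 * x i - (x i + ∑ j ∈ Finset.univ.erase i, x j) =
      x i - ∑ j ∈ Finset.univ.erase i, x j := by ring
  rw [h2]
  exact (abs_sub _ _).trans (add_le_add le_rfl h1)

lemma gg_norm_le (x : Fin n → ℝ) : ‖gg x‖ ≤ l1 x := by
  rw [pi_norm_le_iff_of_nonneg (l1_nonneg x)]
  exact fun i => gg_abs_le x i

lemma NN_le_l1 (hn : 4 ≤ n) (x : Fin n → ℝ) : NN n x ≤ l1 x := by
  refine max_le (gg_norm_le x) ?_
  by_cases hx : x = 0
  · subst hx
    have h1 : NM n (0 : Fin n → ℝ) = 0 := by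
      have := NM_smul (n := n) 0 0
      simpa using this
    rw [h1]; exact l1_nonneg _
  · exact (NM_lt hn hx).le

lemma gg_le_NN (x : Fin n → ℝ) (i : Fin n) : |gg x i| ≤ NN n x :=
  (norm_le_pi_norm (gg x) i).trans (le_max_left _ _)

lemma l1_single (i : Fin n) : l1 (Pi.single i (1 : ℝ) : Fin n → ℝ) = 1 := by
  unfold l1
  rw [Finset.sum_eq_single i]
  · simp
  · intro j _ hj
    simp [hj]
  · simp

lemma NN_single_le (hn : 4 ≤ n) (i : Fin n) : NN n (Pi.single i (1 : ℝ)) ≤ 1 := by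
  exact (NN_le_l1 hn _).trans (l1_single i).le

end Q92.KX
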