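import Pool.Agent.Q92.KX.Local

/-!
From local stationarity to identities on the whole subspace.
-/

open Set Filter Topology

namespace Q92.KX

variable {n : ℕ}

lemma eq_of_eventually {f : ℝ → ℝ} (hf : ∀ t, AnalyticAt ℝ f t) (h : ∀ᶠ t in 𝓝 (0 : ℝ), f t = 0)
    (t : ℝ) : f t = 0 := by
  have h1 : AnalyticOnNhd ℝ f univ := fun t _ => hf t
  exact h1.eqOn_zero_of_preconnected_of_eventuallyEq_zero isPreconnected_univ (mem_univ 0) h
    (mem_univ t)

lemma qf_neg (z : Fin n → ℝ) : qf n (-z) = qf n z := by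
  unfold qf; simp

lemma bf_neg (z v : Fin n → ℝ) : bf n (-z) v = -bf n z v := by
  unfold bf
  rw [← Finset.sum_neg_distrib]
  exact Finset.sum_congr rfl fun i _ => by simp only [Pi.neg_apply]; ring

lemma DD_neg (z v : Fin n → ℝ) : DD n (-z) v = -DD n z v := by
  unfold DD
  rw [qf_neg, bf_neg]
  have : ∑ i, v i * (-z) i ^ (2 * n + 1) = -∑ i, v i * z i ^ (2 * n + 1) := by
    rw [← Finset.sum_neg_distrib]
    refine Finset.sum_congr rfl fun i _ => ?_
    simp only [Pi.neg_apply]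
    rw [Odd.neg_pow ⟨n, rfl⟩]
    ring
  rw [this]
  ring

variable {Z : Submodule ℝ (Fin n → ℝ)} {P : (Fin n → ℝ) →ₗ[ℝ] (Fin n → ℝ)}

/-- A base point: curved part active, and all coordinates in the support nonzero. -/
structure BP (Z : Submodule ℝ (Fin n → ℝ)) (b : Fin n → ℝ) : Prop where
  mem : b ∈ Z
  ne : b ≠ 0
  act : ‖gg b‖ < NM n b
  supp : ∀ i, b i ≠ 0 ∨ ∀ z ∈ Z, z i = 0

lemma line_near {b : Fin n → ℝ} (hb : BP Z b) {y : Fin n → ℝ} (hy : y ∈ Z) :
    ∀ᶠ t in 𝓝 (0 : ℝ), BP Z (b + t • y) ∧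
      ∀ i, SignType.sign ((b + t • y) i) = SignType.sign (b i) := by
  have h1 : ∀ᶠ t in 𝓝 (0 : ℝ), ‖gg (b + t • y)‖ < NM n (b + t • y) := by
    have hy0 : ∀ i, b i ≠ 0 ∨ y i = 0 := fun i => (hb.supp i).imp id fun h => h y hy
    have hc1 : ContinuousAt (fun t : ℝ => NM n (b + t • y)) 0 :=
      (deriv_NM hb.ne hy0).continuousAt
    have hc2 : ContinuousAt (fun t : ℝ => ‖gg (b + t • y)‖) 0 :=
      (cont_gg b y).norm.continuousAt
    exact hc2.eventually_lt hc1 (by simpa using hb.act)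
  have h2 : ∀ i, ∀ᶠ t in 𝓝 (0 : ℝ), SignType.sign ((b + t • y) i) = SignType.sign (b i) := by
    intro i
    have hc : ContinuousAt (fun t : ℝ => (b + t • y) i) 0 := by
      simp only [Pi.add_apply, Pi.smul_apply, smul_eq_mul]
      fun_prop
    rcases hb.supp i with h | h
    · rcases lt_or_gt_of_ne h with h3 | h3
      · have : ∀ᶠ t in 𝓝 (0 : ℝ), (b + t • y) i < 0 :=
          hc.eventually_lt continuousAt_const (by simpa using h3)
        filter_upwards [this] with t ht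
        rw [sign_neg ht, sign_neg h3]
      · have : ∀ᶠ t in 𝓝 (0 : ℝ), 0 < (b + t • y) i :=
          continuousAt_const.eventually_lt hc (by simpa using h3)
        filter_upwards [this] with t ht
        rw [sign_pos ht, sign_pos h3]
    · refine Eventually.of_forall fun t => ?_
      have e1 := h b hb.mem
      have e2 := h y hy
      simp [e1, e2]
  have h3 := eventually_all.2 h2
  filter_upwards [h1, h3] with t ht1 ht2
  have hmem : b + t • y ∈ Z := Z.add_mem hb.mem (Z.smul_mem t hy)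
  have hsupp : ∀ i, (b + t • y) i ≠ 0 ∨ ∀ z ∈ Z, z i = 0 := by
    intro i
    rcases hb.supp i with h | h
    · left
      have := ht2 i
      intro h0
      rw [h0, sign_zero] at this
      exact h (sign_eq_zero_iff.1 this.symm)
    · right; exact h
  refine ⟨⟨hmem, ?_, ht1, hsupp⟩, ht2⟩
  obtain ⟨i, hi⟩ := Function.ne_iff.1 hb.ne
  intro h0
  rcases hsupp i with h | h
  · exact h (by rw [h0]; rfl)
  · exact hi (h b hb.mem)

lemma rpow_help {F D c : ℝ} (hF : 0 < F) {ε : ℝ} (hε : 0 < ε) (n : ℕ)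
    (h : c + ε * (F ^ (1 / (2 * (n + 1) : ℝ) - 1) * D) = 0) :
    D ^ (2 * (n + 1)) = (c / ε) ^ (2 * (n + 1)) * F ^ (2 * n + 1) := by
  have h1 : F ^ (1 / (2 * (n + 1) : ℝ) - 1) * F ^ (1 - 1 / (2 * (n + 1) : ℝ)) = 1 := by
    rw [← Real.rpow_add hF]
    have : (1 / (2 * (n + 1) : ℝ) - 1) + (1 - 1 / (2 * (n + 1) : ℝ)) = 0 := by ring
    rw [this, Real.rpow_zero]
  have h2 : D = -(c / ε) * F ^ (1 - 1 / (2 * (n + 1) : ℝ)) := by
    have h3 : F ^ (1 / (2 * (n + 1) : ℝ) - 1) * D = -(c / ε) := by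
      generalize F ^ (1 / (2 * (n + 1) : ℝ) - 1) * D = X at h
      rw [eq_neg_iff_add_eq_zero, ← mul_left_inj' hε.ne', add_mul, div_mul_cancel₀ _ hε.ne']
      linarith
    calc D = (F ^ (1 / (2 * (n + 1) : ℝ) - 1) * F ^ (1 - 1 / (2 * (n + 1) : ℝ))) * D := by
          rw [h1, one_mul]
      _ = (F ^ (1 / (2 * (n + 1) : ℝ) - 1) * D) * F ^ (1 - 1 / (2 * (n + 1) : ℝ)) := by ring
      _ = _ := by rw [h3]
  have h4 : (F ^ (1 - 1 / (2 * (n + 1) : ℝ))) ^ (2 * (n + 1)) = F ^ (2 * n + 1) := by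
    rw [← Real.rpow_natCast, ← Real.rpow_mul hF.le, ← Real.rpow_natCast]
    congr 1
    push_cast
    field_simp
    ring
  rw [h2, mul_pow, h4, Even.neg_pow ⟨n + 1, by ring⟩]

/-- The polynomial identity on the subspace. -/
lemma poly_identity (hn : 4 ≤ n) (hP : CP Z P) {b : Fin n → ℝ} (hb : BP Z b) {x : Fin n → ℝ}
    (hx : ∀ i, b i ≠ 0 ∨ x i = 0) {z : Fin n → ℝ} (hz : z ∈ Z) :
    DD n z (x - P x) ^ (2 * (n + 1)) =
      ((1 - 2 * ep n) * sg b (x - P x) / ep n) ^ (2 * (n + 1)) * FF n z ^ (2 * n + 1) := by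
  set v := x - P x with hv
  set c := (1 - 2 * ep n) * sg b v with hc
  have hε := ep_pos hn
  set y := z - b with hy
  have hyZ : y ∈ Z := Z.sub_mem hz hb.mem
  have hloc : ∀ᶠ t in 𝓝 (0 : ℝ), DD n (b + t • y) v ^ (2 * (n + 1)) -
      (c / ep n) ^ (2 * (n + 1)) * FF n (b + t • y) ^ (2 * n + 1) = 0 := by
    filter_upwards [line_near hb hyZ] with t ht
    obtain ⟨hbt, hsgn⟩ := ht
    have hx' : ∀ i, (b + t • y) i ≠ 0 ∨ x i = 0 := by
      intro i
      rcases hx i with h | h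
      · left
        intro h0
        have := hsgn i
        rw [h0, sign_zero] at this
        exact h (sign_eq_zero_iff.1 this.symm)
      · right; exact h
    have hPx' : ∀ i, (b + t • y) i ≠ 0 ∨ P x i = 0 := fun i =>
      (hbt.supp i).imp id fun h => h _ (hP.mem x)
    have h1 := stationary hP hbt.mem hbt.ne hbt.act hx' hPx'
    have h2 : sg (b + t • y) v = sg b v := by
      unfold sg
      exact Finset.sum_congr rfl fun i _ => by rw [hsgn i]
    rw [h2, ← hc] at h1
    rw [rpow_help (FF_pos hbt.ne) hε n h1, sub_self]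
  have hana : ∀ t, AnalyticAt ℝ (fun t : ℝ => DD n (b + t • y) v ^ (2 * (n + 1)) -
      (c / ep n) ^ (2 * (n + 1)) * FF n (b + t • y) ^ (2 * n + 1)) t := by
    intro t
    unfold DD FF qf bf
    simp only [Pi.add_apply, Pi.smul_apply, smul_eq_mul]
    fun_prop
  have h3 := eq_of_eventually hana hloc 1
  have h4 : b + (1 : ℝ) • y = z := by rw [hy, one_smul]; abel
  simp only [h4] at h3
  linarith

/-- The key consequences of stationarity. -/
lemma consequences (hn : 4 ≤ n) (hP : CP Z P) {b : Fin n → ℝ} (hb : BP Z b)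
    (hdim : ∃ z1 ∈ Z, ∃ z2 ∈ Z, LinearIndependent ℝ ![z1, z2]) {x : Fin n → ℝ}
    (hx : ∀ i, b i ≠ 0 ∨ x i = 0) :
    sg b (x - P x) = 0 ∧ ∀ z ∈ Z, DD n z (x - P x) = 0 := by
  set v := x - P x with hv
  have hε := ep_pos hn
  have hε' := ep_lt hn
  have hid := fun {z : Fin n → ℝ} (hz : z ∈ Z) => poly_identity hn hP hb hx hz
  obtain ⟨z1, hz1, z2, hz2, hli⟩ := hdim
  have hli' := LinearIndependent.pair_iff.1 hli
  -- a zero of the odd form
  have hzero : ∃ w ∈ Z, w ≠ 0 ∧ DD n w v = 0 := by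
    set φ : ℝ → ℝ := fun θ => DD n (Real.cos θ • z1 + Real.sin θ • z2) v with hφ
    have hcont : Continuous φ := by
      simp only [hφ]
      unfold DD qf bf
      simp only [Pi.add_apply, Pi.smul_apply, smul_eq_mul]
      fun_prop
    have h0 : φ 0 = DD n z1 v := by simp [hφ]
    have hpi : φ Real.pi = -φ 0 := by
      simp only [hφ, Real.cos_pi, Real.sin_pi, Real.cos_zero, Real.sin_zero, zero_smul, add_zero,
        one_smul, neg_smul]
      exact DD_neg _ _
    have hex : ∃ θ, φ θ = 0 := by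
      have := intermediate_value_univ₂ (f := φ) (g := fun _ => 0) (a := 0) (b := Real.pi) hcont
        continuous_const
      rcases le_total (φ 0) 0 with h | h
      · obtain ⟨θ, hθ⟩ := intermediate_value_univ₂ hcont continuous_const (g := fun _ => (0 : ℝ))
          (a := 0) (b := Real.pi) h (by rw [hpi]; linarith)
        exact ⟨θ, hθ⟩
      · obtain ⟨θ, hθ⟩ := intermediate_value_univ₂ hcont continuous_const (g := fun _ => (0 : ℝ))
          (a := Real.pi) (b := 0) (by rw [hpi]; linarith) h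
        exact ⟨θ, hθ⟩
    obtain ⟨θ, hθ⟩ := hex
    refine ⟨_, Z.add_mem (Z.smul_mem (Real.cos θ) hz1) (Z.smul_mem (Real.sin θ) hz2), ?_, hθ⟩
    intro h
    obtain ⟨h1, h2⟩ := hli' _ _ h
    have := Real.cos_sq_add_sin_sq θ
    rw [h1, h2] at this
    norm_num at this
  obtain ⟨w, hwZ, hw0, hw⟩ := hzero
  have h1 := hid hwZ
  rw [← hv, hw, zero_pow (by omega)] at h1
  have hF := FF_pos hw0
  have h2 : ((1 - 2 * ep n) * sg b v / ep n) ^ (2 * (n + 1)) = 0 := by
    rcases mul_eq_zero.1 h1.symm with h | h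
    · exact h
    · exact absurd h (pow_pos hF _).ne'
  have h3 := pow_eq_zero_iff (by omega) |>.1 h2
  constructor
  · rw [div_eq_zero_iff] at h3
    rcases h3 with h | h
    · rcases mul_eq_zero.1 h with h' | h'
      · linarith
      · exact h'
    · linarith
  · intro z hz
    have h4 := hid hz
    rw [h3, zero_pow (by omega), zero_mul] at h4
    exact pow_eq_zero_iff (by omega) |>.1 h4

end Q92.KX
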