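import Pool.Agent.Q92.KX.Fin
import Pool.Agent.Q92.KX.Ext

/-!
The normed space, its extremal hyperplane, and the absence of 1-complemented subspaces.
-/

open Set Filter Topology

namespace Q92.KX

section Defs

variable (X : Type*) [NormedAddCommGroup X] [NormedSpace ℝ X]

/-- The bounded linear projections of `X` onto the subspace `Y`. -/
def projs (Y : Submodule ℝ X) : Set (X →L[ℝ] X) := {P | (∀ x, P x ∈ Y) ∧ ∀ y ∈ Y, P y = y}

/-- The relative projection constant `λ(Y, X)`. -/
noncomputable def relProj (Y : Submodule ℝ X) : ℝ :=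
  sInf ((fun P : X →L[ℝ] X => ‖P‖) '' projs X Y)

end Defs

section

variable {X : Type*} [NormedAddCommGroup X] [NormedSpace ℝ X] {n : ℕ}

lemma projs_nonempty [FiniteDimensional ℝ X] (Y : Submodule ℝ X) : (projs X Y).Nonempty := by
  obtain ⟨g, hg⟩ := Y.subtype.exists_leftInverse_of_injective (by simp)
  refine ⟨LinearMap.toContinuousLinearMap (Y.subtype.comp g), fun x => (g x).2, fun y hy => ?_⟩
  have := LinearMap.congr_fun hg ⟨y, hy⟩
  exact congrArg Subtype.val this

lemma relProj_attained [FiniteDimensional ℝ X] (Y : Submodule ℝ X) :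
    ∃ P ∈ projs X Y, ‖P‖ = relProj X Y := by
  have hclosed : IsClosed (projs X Y) := by
    have h1 : projs X Y = (⋂ x : X, {P : X →L[ℝ] X | P x ∈ Y}) ∩
        ⋂ y : Y, {P : X →L[ℝ] X | P y = y} := by
      ext P
      simp [projs]
    rw [h1]
    have hev : ∀ x : X, Continuous fun P : X →L[ℝ] X => P x := fun x =>
      (ContinuousLinearMap.apply ℝ X x).continuous
    refine IsClosed.inter (isClosed_iInter fun x => ?_) (isClosed_iInter fun y => ?_)
    · exact Y.closed_of_finiteDimensional.preimage (hev x)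
    · exact isClosed_eq (hev y) continuous_const
  have : ProperSpace (X →L[ℝ] X) := FiniteDimensional.proper ℝ _
  obtain ⟨P, hP, hd⟩ := hclosed.exists_infDist_eq_dist (projs_nonempty Y) 0
  refine ⟨P, hP, ?_⟩
  have hmin : ∀ Q ∈ projs X Y, ‖P‖ ≤ ‖Q‖ := by
    intro Q hQ
    have h1 := Metric.infDist_le_dist_of_mem (x := (0 : X →L[ℝ] X)) hQ
    rw [hd, dist_zero_left, dist_zero_left] at h1
    exact h1
  refine le_antisymm ?_ ?_
  · refine le_csInf ((projs_nonempty Y).image _) ?_
    rintro _ ⟨Q, hQ, rfl⟩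
    exact hmin Q hQ
  · refine csInf_le ⟨0, ?_⟩ ⟨P, hP, rfl⟩
    rintro _ ⟨Q, -, rfl⟩
    exact norm_nonneg _

lemma Pv_add (x y : Fin n → ℝ) : Pv (x + y) = Pv x + Pv y := by
  funext i
  simp only [Pv, fs_add, Pi.add_apply]
  ring

lemma Pv_smul (c : ℝ) (x : Fin n → ℝ) : Pv (c • x) = c • Pv x := by
  funext i
  simp only [Pv, fs_smul, Pi.smul_apply, smul_eq_mul]
  ring

/-- The key properties, for any normed space isometric to `(ℝⁿ, NN)`. -/
lemma space_props (hn : 4 ≤ n) (e : X ≃ₗ[ℝ] (Fin n → ℝ)) (he : ∀ x, ‖x‖ = NN n (e x)) :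
    Module.finrank ℝ X = n ∧
    (∃ Y : Submodule ℝ X, Module.finrank ℝ Y = n - 1 ∧ relProj X Y = 2 - 2 / n) ∧
    ∀ Z : Submodule ℝ X, 3 ≤ Module.finrank ℝ Z → Module.finrank ℝ Z ≤ n - 1 →
      relProj X Z ≠ 1 := by
  have hn0 : (0 : ℝ) < n := by exact_mod_cast (by omega : 0 < n)
  have hn4 : (4 : ℝ) ≤ n := by exact_mod_cast hn
  have : FiniteDimensional ℝ X := e.symm.finiteDimensional
  have hrank : Module.finrank ℝ X = n := by
    rw [e.finrank_eq, Module.finrank_fintype_fun_eq_card, Fintype.card_fin]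
  have hκ : 0 ≤ (2 : ℝ) - 2 / n := by
    have : 2 / (n : ℝ) ≤ 1 := by rw [div_le_one hn0]; linarith
    linarith
  refine ⟨hrank, ?_, ?_⟩
  · -- the extremal hyperplane
    let f : X →ₗ[ℝ] ℝ := { toFun := fun x => fs (e x)
                           map_add' := fun x y => by rw [map_add, fs_add]
                           map_smul' := fun c x => by rw [map_smul, fs_smul]; rfl }
    have hf : ∀ x, f x = fs (e x) := fun x => rfl
    have hf0 : f ≠ 0 := by
      intro h0
      have h1 : f (e.symm (fun _ => 1)) = 0 := by rw [h0]; rfl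
      rw [hf, e.apply_symm_apply] at h1
      unfold fs at h1
      rw [Finset.sum_const, Finset.card_univ, Fintype.card_fin, nsmul_eq_mul, mul_one] at h1
      exact hn0.ne' h1
    refine ⟨LinearMap.ker f, ?_, ?_⟩
    · have h1 := Module.Dual.finrank_ker_add_one_of_ne_zero (f := f) hf0
      omega
    · refine le_antisymm ?_ ?_
      · -- upper bound
        let Q : X →ₗ[ℝ] X := { toFun := fun x => e.symm (Pv (e x))
                               map_add' := fun x y => by
                                rw [map_add e, Pv_add, map_add]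
                               map_smul' := fun c x => by
                                rw [map_smul e, Pv_smul, map_smul]; rfl }
        have hQ : ∀ x, Q x = e.symm (Pv (e x)) := fun x => rfl
        have hle : ‖LinearMap.toContinuousLinearMap Q‖ ≤ 2 - 2 / n := by
          refine ContinuousLinearMap.opNorm_le_bound _ hκ fun x => ?_
          show ‖Q x‖ ≤ _
          rw [he, he, hQ, e.apply_symm_apply]
          exact NN_Pv_le hn _
        have hmem : LinearMap.toContinuousLinearMap Q ∈ projs X (LinearMap.ker f) := by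
          refine ⟨?_, ?_⟩
          · intro x
            show Q x ∈ LinearMap.ker f
            rw [LinearMap.mem_ker, hf, hQ, e.apply_symm_apply, fs_Pv hn]
          · intro y hy
            show Q y = y
            rw [LinearMap.mem_ker, hf] at hy
            rw [hQ]
            have : Pv (e y) = e y := by
              funext i
              unfold Pv
              rw [hy]
              simp
            rw [this, e.symm_apply_apply]
        have hbdd : BddBelow ((fun P : X →L[ℝ] X => ‖P‖) '' projs X (LinearMap.ker f)) := by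
          refine ⟨0, ?_⟩
          rintro _ ⟨Q, -, rfl⟩
          exact norm_nonneg _
        exact (csInf_le hbdd ⟨_, hmem, rfl⟩).trans hle
      · -- lower bound
        refine le_csInf ((projs_nonempty _).image _) ?_
        rintro _ ⟨P, hP, rfl⟩
        let P' : (Fin n → ℝ) →ₗ[ℝ] (Fin n → ℝ) := (e : X →ₗ[ℝ] (Fin n → ℝ)).comp
          ((P : X →ₗ[ℝ] X).comp (e.symm : (Fin n → ℝ) →ₗ[ℝ] X))
        have hP' : ∀ x, P' x = e (P (e.symm x)) := fun x => rfl
        refine lower hn (P := P') (fun x => ?_) (fun x hx => ?_) fun x => ?_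
        · have := hP.1 (e.symm x)
          rw [LinearMap.mem_ker, hf] at this
          rw [hP']
          exact this
        · have h1 : e.symm x ∈ LinearMap.ker f := by
            rw [LinearMap.mem_ker, hf, e.apply_symm_apply]; exact hx
          rw [hP', hP.2 _ h1, e.apply_symm_apply]
        · rw [hP', ← he]
          refine (P.le_opNorm _).trans (le_of_eq ?_)
          rw [he (e.symm x), e.apply_symm_apply]
  · intro Z hZ3 hZn h1
    obtain ⟨P, hP, hPn⟩ := relProj_attained Z
    rw [h1] at hPn
    set Z' : Submodule ℝ (Fin n → ℝ) := Z.map (e : X →ₗ[ℝ] (Fin n → ℝ)) with hZ'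
    have hfin : Module.finrank ℝ Z' = Module.finrank ℝ Z := LinearEquiv.finrank_map_eq e Z
    let P' : (Fin n → ℝ) →ₗ[ℝ] (Fin n → ℝ) := (e : X →ₗ[ℝ] (Fin n → ℝ)).comp
      ((P : X →ₗ[ℝ] X).comp (e.symm : (Fin n → ℝ) →ₗ[ℝ] X))
    have hP' : ∀ x, P' x = e (P (e.symm x)) := fun x => rfl
    refine no_contractive (Z := Z') (P := P') hn (by omega) (by omega) ⟨?_, ?_, ?_⟩
    · intro x
      rw [hP']
      exact Submodule.mem_map_of_mem (hP.1 _)
    · rintro z ⟨y, hy, rfl⟩
      rw [hP']
      show e (P (e.symm (e y))) = e y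
      rw [e.symm_apply_apply, hP.2 y hy]
    · intro x
      rw [hP', ← he]
      refine (P.le_opNorm _).trans (le_of_eq ?_)
      rw [hPn, one_mul, he, e.apply_symm_apply]

end

/-- The vector space `ℝⁿ`, without its usual norm. -/
def KS (n : ℕ) : Type := Fin n → ℝ

instance (n : ℕ) : AddCommGroup (KS n) := inferInstanceAs (AddCommGroup (Fin n → ℝ))

instance (n : ℕ) : Module ℝ (KS n) := inferInstanceAs (Module ℝ (Fin n → ℝ))

noncomputable instance (n : ℕ) : Norm (KS n) := ⟨fun x => NN n x⟩

lemma core {n : ℕ} (hn : 4 ≤ n) : NormedSpace.Core ℝ (KS n) where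
  norm_nonneg := fun x => NN_nonneg (n := n) x
  norm_smul := fun c x => NN_smul (n := n) c x
  norm_triangle := fun x y => NN_add hn x y
  norm_eq_zero_iff := fun x => ⟨fun h => NN_eq_zero hn h, fun h => by
    subst h
    have := NN_smul (n := n) 0 0
    rw [zero_smul, abs_zero, zero_mul] at this
    exact this⟩

theorem main (n : ℕ) (hn : 4 ≤ n) :
    ∃ (X : Type) (_ : NormedAddCommGroup X) (_ : NormedSpace ℝ X),
      Module.finrank ℝ X = n ∧
      (∃ Y : Submodule ℝ X, Module.finrank ℝ Y = n - 1 ∧ relProj X Y = 2 - 2 / n) ∧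
      ∀ Z : Submodule ℝ X, 3 ≤ Module.finrank ℝ Z → Module.finrank ℝ Z ≤ n - 1 →
        relProj X Z ≠ 1 := by
  let i1 : NormedAddCommGroup (KS n) := NormedAddCommGroup.ofCore (core hn)
  let i2 : NormedSpace ℝ (KS n) := NormedSpace.ofCore (core hn)
  exact ⟨KS n, i1, i2, space_props hn (LinearEquiv.refl ℝ (Fin n → ℝ) : KS n ≃ₗ[ℝ] (Fin n → ℝ))
    fun x => rfl⟩

end Q92.KX
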