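import Pool.Agent.Q92.KX.CaseI

/-!
Strictly active functionals, and the end of Case I.
-/

open Set Filter Topology

namespace Q92.KX

variable {n : ℕ} {Z : Submodule ℝ (Fin n → ℝ)} {P : (Fin n → ℝ) →ₗ[ℝ] (Fin n → ℝ)}

lemma cont_NM : Continuous fun x : Fin n → ℝ => NM n x := by
  unfold NM l1 EE FF qf
  refine Continuous.add ?_ ?_
  · fun_prop
  · refine continuous_const.mul (Continuous.rpow_const (by fun_prop) fun x => Or.inr ?_)
    positivity

lemma strict_fun (hP : CP Z P) {z : Fin n → ℝ} (hz : z ∈ Z) {i : Fin n}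
    (h1 : NM n z < gg z i) {x : Fin n → ℝ}
    (hx : ∀ j, |gg z j| < gg z i ∨
      ∃ s : ℝ, |s| ≤ 1 ∧ gg z j = s * gg z i ∧ gg x j = s * gg x i) :
    gg (P x) i = gg x i := by
  have hline : ∀ (y : Fin n → ℝ) (t : ℝ) (j : Fin n), gg (z + t • y) j = gg z j + t * gg y j := by
    intro y t j
    rw [gg_add, gg_smul]
    rfl
  have hcl : ContinuousAt (fun t : ℝ => gg (z + t • x) i) 0 := by
    simp only [hline]
    fun_prop
  have hev1 : ∀ᶠ t in 𝓝 (0 : ℝ), NM n (z + t • x) < gg (z + t • x) i := by
    have hc1 : ContinuousAt (fun t : ℝ => NM n (z + t • x)) 0 := by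
      have : Continuous fun t : ℝ => z + t • x := by fun_prop
      exact (cont_NM.comp this).continuousAt
    exact hc1.eventually_lt hcl (by simpa using h1)
  have hev0 : ∀ᶠ t in 𝓝 (0 : ℝ), 0 ≤ gg (z + t • x) i := by
    have h0 : 0 < gg z i ∨ ¬ 0 < gg z i := em _
    rcases h0 with h0 | h0
    · have : ∀ᶠ t in 𝓝 (0 : ℝ), 0 < gg (z + t • x) i :=
        continuousAt_const.eventually_lt hcl (by simpa using h0)
      exact this.mono fun t ht => ht.le
    · exfalso
      have h2 : ∀ j, ¬ |gg z j| < gg z i := fun j hj => h0 ((abs_nonneg _).trans_lt hj)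
      obtain ⟨s, -, hs, -⟩ := (hx i).resolve_left (h2 i)
      have h3 : 0 ≤ l1 z := l1_nonneg z
      by_cases hz0 : z = 0
      · subst hz0
        have h4 : NM n (0 : Fin n → ℝ) = 0 := by
          have := NM_smul (n := n) 0 0
          simpa using this
        rw [h4] at h1
        exact h0 h1
      · have h5 : 0 ≤ EE n z := EE_nonneg z
        -- `NM` is nonnegative because of the triangle inequality-free bound
        have hn0 : 0 < n := i.pos
        have hep : 0 ≤ ep n := by unfold ep; positivity
        have hep' : 2 * ep n ≤ 1 := by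
          unfold ep
          have : (1 : ℝ) ≤ n := by exact_mod_cast hn0
          rw [mul_one_div, div_le_one (by positivity)]
          linarith
        have h6 : 0 ≤ NM n z := by
          unfold NM
          exact add_nonneg (mul_nonneg (by linarith) h3) (mul_nonneg hep h5)
        exact h0 (h6.trans_lt h1)
  have hev2 : ∀ j, ∀ᶠ t in 𝓝 (0 : ℝ), |gg (z + t • x) j| ≤ gg (z + t • x) i := by
    intro j
    rcases hx j with h | ⟨s, hs, h2, h3⟩
    · have hc1 : ContinuousAt (fun t : ℝ => |gg (z + t • x) j|) 0 := by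
        simp only [hline]
        fun_prop
      have := hc1.eventually_lt hcl (by simpa using h)
      exact this.mono fun t ht => ht.le
    · filter_upwards [hev0] with t ht
      have : gg (z + t • x) j = s * gg (z + t • x) i := by
        rw [hline, hline, h2, h3]; ring
      rw [this, abs_mul, abs_of_nonneg ht]
      calc |s| * gg (z + t • x) i ≤ 1 * gg (z + t • x) i :=
            mul_le_mul_of_nonneg_right hs ht
        _ = _ := one_mul _
  have hev : ∀ᶠ t in 𝓝 (0 : ℝ), t * (gg (P x) i - gg x i) ≤ 0 := by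
    filter_upwards [hev1, hev0, eventually_all.2 hev2] with t h1 h0 h2
    have h3 : NN n (z + t • x) ≤ gg (z + t • x) i := by
      refine max_le ?_ h1.le
      rw [pi_norm_le_iff_of_nonneg h0]
      exact h2
    have h4 : gg (z + t • P x) i ≤ NN n (z + t • x) := by
      have e : z + t • P x = P (z + t • x) := by rw [map_add, map_smul, hP.id z hz]
      rw [e]
      exact (le_abs_self _).trans ((gg_le_NN _ i).trans (hP.le _))
    have h5 := h4.trans h3
    rw [hline, hline] at h5
    linarith
  obtain ⟨δ, hδ, hball⟩ := Metric.eventually_nhds_iff.1 hev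
  have ha := hball (y := δ / 2) (by
    rw [Real.dist_eq, sub_zero, abs_of_pos (by positivity)]; linarith)
  have hb := hball (y := -(δ / 2)) (by
    rw [Real.dist_eq, sub_zero, abs_neg, abs_of_pos (by positivity)]; linarith)
  have h1 : gg (P x) i - gg x i ≤ 0 := by
    by_contra hc
    push Not at hc
    have := mul_pos (half_pos hδ) hc
    linarith
  have h2 : 0 ≤ gg (P x) i - gg x i := by
    by_contra hc
    push Not at hc
    have := mul_pos (half_pos hδ) (neg_pos.2 hc)
    linarith
  linarith

/-- Case I is impossible. -/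
lemma caseI (hn : 4 ≤ n) (hP : CP Z P) (h3 : 3 ≤ Module.finrank ℝ Z)
    (hlt : Module.finrank ℝ Z < n)
    (hdim : ∃ z1 ∈ Z, ∃ z2 ∈ Z, LinearIndependent ℝ ![z1, z2]) {z0 : Fin n → ℝ} (hz0 : z0 ∈ Z)
    (hact : ‖gg z0‖ < NM n z0) : False := by
  classical
  obtain ⟨b, hb⟩ := exists_BP hz0 hact
  set S : Finset (Fin n) := Finset.univ.filter fun i => b i ≠ 0 with hS
  have hmemS : ∀ i, i ∈ S ↔ b i ≠ 0 := fun i => by simp [hS]
  -- `|S| ≥ 3`
  have hcard : 3 ≤ S.card := by
    let ψ : Z →ₗ[ℝ] (S → ℝ) := LinearMap.pi fun i => (LinearMap.proj (i : Fin n)).comp Z.subtype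
    have hinj : Function.Injective ψ := by
      rw [← LinearMap.ker_eq_bot, LinearMap.ker_eq_bot']
      intro z hz
      ext i
      rcases hb.supp i with hi | hi
      · exact congrFun hz ⟨i, (hmemS i).2 hi⟩
      · exact hi z z.2
    have := LinearMap.finrank_le_finrank_of_injective hinj
    rw [Module.finrank_fintype_fun_eq_card, Fintype.card_coe] at this
    omega
  -- `S ≠ univ`
  have hex : ∃ m0, b m0 = 0 := by
    by_contra hc
    push Not at hc
    have htop : Z = ⊤ := by
      rw [eq_top_iff]
      intro x _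
      exact supp_mem hn hP hb hdim fun i => Or.inl (hc i)
    rw [htop, finrank_top, Module.finrank_fintype_fun_eq_card, Fintype.card_fin] at hlt
    exact lt_irrefl _ hlt
  obtain ⟨m0, hm0⟩ := hex
  set x : Fin n → ℝ := Pi.single m0 (1 : ℝ) with hx
  have hfx : fs x = 1 := by
    unfold fs
    rw [Finset.sum_eq_single m0]
    · simp [hx]
    · intro j _ hj
      simp [hx, hj]
    · simp
  -- the key equations
  have hkey : ∀ i, b i ≠ 0 → gg (P x) i = gg x i := by
    intro i hi
    have hcard2 : 2 ≤ (S.erase i).card := by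
      rw [Finset.card_erase_of_mem ((hmemS i).2 hi)]
      omega
    obtain ⟨j, hj, l, hl, hjl⟩ := Finset.one_lt_card.1 hcard2
    rw [Finset.mem_erase, hmemS] at hj hl
    set z : Fin n → ℝ := Pi.single i (1 : ℝ) - Pi.single j (1 : ℝ) - Pi.single l (1 : ℝ) with hz
    have hzi : z i = 1 := by simp [hz, hj.1.symm, hl.1.symm]
    have hzj : z j = -1 := by simp [hz, hj.1, hjl]
    have hzl : z l = -1 := by simp [hz, hl.1, hjl.symm]
    have hzo : ∀ m, m ≠ i → m ≠ j → m ≠ l → z m = 0 := by
      intro m h1 h2 h3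
      simp [hz, h1, h2, h3]
    have hsum : ∀ φ : ℝ → ℝ, φ 0 = 0 → ∑ m, φ (z m) = φ 1 + φ (-1) + φ (-1) := by
      intro φ hφ
      rw [← Finset.add_sum_erase _ _ (Finset.mem_univ i),
        ← Finset.add_sum_erase _ _ (Finset.mem_erase.2 ⟨hj.1, Finset.mem_univ j⟩),
        ← Finset.add_sum_erase _ _ (Finset.mem_erase.2 ⟨hjl.symm, Finset.mem_erase.2
          ⟨hl.1, Finset.mem_univ l⟩⟩), Finset.sum_eq_zero, hzi, hzj, hzl]
      · ring
      · intro m hm
        rw [Finset.mem_erase, Finset.mem_erase, Finset.mem_erase] at hm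
        rw [hzo m hm.2.2.1 hm.2.1 hm.1, hφ]
    have hfz : fs z = -1 := by
      have := hsum id rfl
      simp only [id] at this
      unfold fs
      rw [this]; ring
    have hlz : l1 z = 3 := by
      have := hsum abs abs_zero
      unfold l1
      rw [this]; norm_num
    have hgi : gg z i = 3 := by unfold gg; rw [hzi, hfz]; norm_num
    have hzZ : z ∈ Z := by
      refine supp_mem hn hP hb hdim fun m => ?_
      by_cases h1 : m = i
      · left; rw [h1]; exact hi
      · by_cases h2 : m = j
        · left; rw [h2]; exact hj.2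
        · by_cases h3 : m = l
          · left; rw [h3]; exact hl.2
          · right; exact hzo m h1 h2 h3
    have hz0' : z ≠ 0 := by
      intro h
      rw [h] at hzi
      simp at hzi
    refine strict_fun hP hzZ ?_ fun m => ?_
    · rw [hgi, ← hlz]
      exact NM_lt hn hz0'
    · by_cases h1 : m = i
      · right
        exact ⟨1, by simp, by rw [h1, one_mul], by rw [h1, one_mul]⟩
      · left
        rw [hgi]
        unfold gg
        rw [hfz]
        by_cases h2 : m = j
        · rw [h2, hzj]; norm_num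
        · by_cases h3 : m = l
          · rw [h3, hzl]; norm_num
          · rw [hzo m h1 h2 h3]; norm_num
  set y := P x with hy
  have hyZ : y ∈ Z := hP.mem x
  have hyi : ∀ i, b i ≠ 0 → y i = (fs y - 1) / 2 := by
    intro i hi
    have h1 := hkey i hi
    have h2 : x i = 0 := by
      have : i ≠ m0 := by rintro rfl; exact hi hm0
      simp [hx, this]
    unfold gg at h1
    rw [hfx, h2] at h1
    linarith
  have hy0 : ∀ i, b i = 0 → y i = 0 := by
    intro i hi
    rcases hb.supp i with h | h
    · exact absurd hi h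
    · exact h y hyZ
  obtain ⟨c, hc⟩ : ∃ c, c = (fs y - 1) / 2 := ⟨_, rfl⟩
  rw [← hc] at hyi
  have hfy : fs y = S.card * c := by
    have : fs y = ∑ i, y i := rfl
    rw [this, ← Finset.sum_filter_add_sum_filter_not Finset.univ (fun i => b i ≠ 0)]
    have e1 : ∑ i with b i ≠ 0, y i = ∑ i with b i ≠ 0, c :=
      Finset.sum_congr rfl fun i hi => hyi i (Finset.mem_filter.1 hi).2
    have e2 : ∑ i with ¬ b i ≠ 0, y i = 0 :=
      Finset.sum_eq_zero fun i hi => hy0 i (not_not.1 (Finset.mem_filter.1 hi).2)
    rw [e1, e2, Finset.sum_const, nsmul_eq_mul, add_zero]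
  rw [hc] at hfy
  have hN : NN n y ≤ 1 := (hP.le x).trans (NN_single_le hn m0)
  have hgm : |gg y m0| ≤ 1 := (gg_le_NN y m0).trans hN
  unfold gg at hgm
  rw [hy0 m0 hm0, mul_zero, zero_sub, abs_neg] at hgm
  have hk3 : (3 : ℝ) ≤ S.card := by exact_mod_cast hcard
  have h4 := (abs_le.1 hgm).2
  have h5 := (abs_le.1 hgm).1
  nlinarith

end Q92.KX
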